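import Pool.Agent.W_7d29a1_h46.Peano

/-!
Curvature from below at almost every slope.
-/

namespace Pool.Agent.W_7d29a1_h46s

open MeasureTheory Set Filter Topology Pool.Agent.W_7d29a1_h46

/-- Legendre transform over a compact interval. -/
noncomputable def LowCI (L : ℝ → ℝ) (M v : ℝ) : ℝ :=
  sSup ((fun h : ℝ => h * v - L h) '' Icc (-M) M)

theorem LowC_bdd {L : ℝ → ℝ} (hL : ConvexOn ℝ univ L) (M v : ℝ) :
    BddAbove ((fun h : ℝ => h * v - L h) '' Icc (-M) M) := by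
  have hc : Continuous L := by
    rw [← continuousOn_univ]
    exact hL.continuousOn isOpen_univ
  exact (isCompact_Icc.image (by fun_prop)).bddAbove

theorem LowC_le {L : ℝ → ℝ} (hL : ConvexOn ℝ univ L) {M h : ℝ} (hh : |h| ≤ M) (v : ℝ) :
    h * v - L h ≤ LowCI L M v :=
  le_csSup (LowC_bdd hL M v) ⟨h, abs_le.1 hh, rfl⟩

theorem LowC_ge {L : ℝ → ℝ} {M v c : ℝ} (hM : 0 ≤ M) (h : ∀ h : ℝ, |h| ≤ M → h * v - L h ≤ c) :
    LowCI L M v ≤ c := by
  refine csSup_le ⟨_, ⟨0, ⟨by linarith, hM⟩, rfl⟩⟩ ?_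
  rintro _ ⟨x, hx, rfl⟩
  exact h x (abs_le.2 hx)

theorem LowC_conv {L : ℝ → ℝ} (hL : ConvexOn ℝ univ L) {M : ℝ} (hM : 0 ≤ M) :
    ConvexOn ℝ univ (LowCI L M) := by
  refine ⟨convex_univ, fun x _ y _ a b ha hb hab => ?_⟩
  refine LowC_ge hM fun h hh => ?_
  have h1 := mul_le_mul_of_nonneg_left (LowC_le hL hh x) ha
  have h2 := mul_le_mul_of_nonneg_left (LowC_le hL hh y) hb
  simp only [smul_eq_mul]
  have h3 : h * (a * x + b * y) - L h = a * (h * x - L h) + b * (h * y - L h) := by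
    have : L h = (a + b) * L h := by rw [hab, one_mul]
    linear_combination -this
  rw [h3]
  exact add_le_add h1 h2

theorem LowC_lin {q C : ℝ} (h : ∀ w : ℝ, |w| ≤ 1 → q * w ≤ C * w ^ 2) : q = 0 := by
  by_contra hq
  have hq0 : 0 < |q| := abs_pos.2 hq
  set C' := max C 0 + |q| + 1 with hC'
  have hC1 : 0 < C' := by
    have := le_max_right C 0
    linarith
  have hC2 : C ≤ max C 0 := le_max_left C 0
  have hC3 : 0 ≤ max C 0 := le_max_right C 0
  have hw : |q / C'| ≤ 1 := by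
    rw [abs_div, abs_of_pos hC1, div_le_one hC1]
    linarith
  have h1 := h _ hw
  have h2 : q * (q / C') = q ^ 2 / C' := by ring
  have h3 : C * (q / C') ^ 2 = C * q ^ 2 / C' ^ 2 := by
    rw [div_pow, mul_div_assoc]
  rw [h2, h3, div_le_div_iff₀ hC1 (by positivity)] at h1
  have hq2 : 0 < q ^ 2 := by positivity
  have h4 : q ^ 2 * C' * (C' - C) ≤ 0 := by nlinarith
  have h5 : 0 < q ^ 2 * C' * (C' - C) := by
    apply mul_pos (mul_pos hq2 hC1)
    linarith
  linarith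

/-- TASK LowC. For `M ∈ ℕ`, `M ≥ 1` let `I_M v = sup_{|h| ≤ M} (h v - L h)` (`sSup` of the image of
`Icc (-M) M`; `L` is continuous since it is convex on the line, so the sup is finite and attained):
convex on the line. By `ae_expd` for `I_M` (`Expd I_M 1 v k`), for almost every `v` and all `M` there are
`k`, `C ≥ 1` (enlarge) with `I_M (v + w) ≤ I_M v + k w + C w ^ 2` for `|w| ≤ 1` (`|w| ^ (1 + 1) = w ^ 2`).
Let `v` be such a point and `h` with `L h + v t ≤ L (h + t)` for all `t`. Choose `M > |h| + 1`. Then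
`I_M v = h v - L h` (`L h' ≥ L h + v (h' - h)`), and `I_M (v + w) ≥ h (v + w) - L h = I_M v + h w`, so
`(h - k) w ≤ C w ^ 2` for all `|w| ≤ 1`, hence `k = h`. For `|t| ≤ 1`, `|h + t| ≤ M` and
`L (h + t) ≥ (h + t) (v + w) - I_M (v + w) ≥ L h + v t + t w - C w ^ 2` for every `|w| ≤ 1`; take
`w = t / (2 C)`: `L (h + t) ≥ L h + v t + t ^ 2 / (4 C)`. -/
theorem ae_low {L : ℝ → ℝ} (hL : ConvexOn ℝ univ L) :
    ∀ᵐ v : ℝ, ∀ h : ℝ, (∀ t : ℝ, L h + v * t ≤ L (h + t)) →
      ∃ c > 0, ∃ δ > 0, ∀ t : ℝ, |t| ≤ δ → L h + v * t + c * t ^ 2 ≤ L (h + t) := by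
  have hall : ∀ M : ℕ, ∀ᵐ v : ℝ, ∃ k, Expd (LowCI L M) 1 v k := fun M =>
    ae_expd (LowC_conv hL (Nat.cast_nonneg M))
  filter_upwards [ae_all_iff.2 hall] with v hv h hh
  obtain ⟨M, hM⟩ := exists_nat_gt (|h| + 1)
  obtain ⟨k, C, hC⟩ := hv M
  have hpow : ∀ w : ℝ, |w| ^ ((1 : ℝ) + 1) = w ^ 2 := by
    intro w
    rw [show ((1 : ℝ) + 1) = ((2 : ℕ) : ℝ) by norm_num, Real.rpow_natCast, sq_abs]
  have hM0 : (0 : ℝ) ≤ M := Nat.cast_nonneg M
  have hhM : |h| ≤ M := by linarith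
  have hI : LowCI L M v = h * v - L h := by
    apply le_antisymm
    · refine LowC_ge hM0 fun x _ => ?_
      have h1 := hh (x - h)
      rw [add_sub_cancel] at h1
      linarith
    · exact LowC_le hL hhM v
  have hk : h - k = 0 := by
    apply LowC_lin (C := C)
    intro w hw
    have h1 := hC w hw
    have h2 := LowC_le hL hhM (v + w)
    rw [hpow, hI] at h1
    linarith
  have hk' : k = h := by linarith
  subst hk'
  set D := max C 1 with hD
  have hD1 : 1 ≤ D := le_max_right _ _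
  have hD2 : C ≤ D := le_max_left _ _
  refine ⟨1 / (4 * D), by positivity, 1, one_pos, fun t ht => ?_⟩
  have hw : |t / (2 * D)| ≤ 1 := by
    rw [abs_div, abs_of_pos (by linarith : 0 < 2 * D), div_le_one (by linarith)]
    linarith
  have h1 := hC _ hw
  have h2 : |k + t| ≤ M := by
    have := abs_add_le k t
    linarith
  have h3 := LowC_le hL h2 (v + t / (2 * D))
  rw [hpow, hI] at h1
  have h4 : C * (t / (2 * D)) ^ 2 ≤ D * (t / (2 * D)) ^ 2 :=
    mul_le_mul_of_nonneg_right hD2 (sq_nonneg _)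
  have hD0 : D ≠ 0 := by linarith
  have h5 : D * (t / (2 * D)) ^ 2 = t ^ 2 / (4 * D) := by
    field_simp
    ring
  have h6 : t * (t / (2 * D)) = 2 * (t ^ 2 / (4 * D)) := by
    field_simp
    ring
  have h7 : 1 / (4 * D) * t ^ 2 = t ^ 2 / (4 * D) := by ring
  rw [h7]
  rw [h5] at h4
  have h8 : (k + t) * (v + t / (2 * D)) = k * v + k * (t / (2 * D)) + v * t + t * (t / (2 * D)) := by
    ring
  rw [h8, h6] at h3
  linarith

end Pool.Agent.W_7d29a1_h46s
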