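import Pool.Agent.W_7d29a1_h46s.FinA
import Pool.Agent.W_7d29a1_h46s.LowC
import Pool.Agent.W_7d29a1_h46.CurvA
import Pool.Agent.W_7d29a1_h46.Fin46

/-!
The inequality `χ (1 + χ*) ≤ 2 ν* χ*` for almost every direction, in dimension one.
-/

namespace Pool.Agent.W_7d29a1_h46s

open MeasureTheory ProbabilityTheory Filter Topology Pool.Agent.W_MP_7d29a1_pr
  Pool.Agent.W_7d29a1_h46 Pool.Agent.W_7d29a1_h46u

variable {Ω : Type*} [MeasurableSpace Ω] {μ : Measure Ω} [IsProbabilityMeasure μ]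
  {ρ : Measure ℝ} [IsProbabilityMeasure ρ] {ω : ℕ × Site 1 → Ω → ℝ} {β : ℝ}

/-- TASK FinS. `ae_tv`; `ae_low` for `Λ` (`lam_convex` of `Fin46.lean`). If `nuS ≥ 1` then the right side is at
least `2 chiS ≥ (1 + chiS) chiT` (`chiT ≤ chiS ≤ 1/2`). If `nuS < 1` then `nuT < 1` (`nuT_le_nuS`), `v` is a
subgradient at `h` (`exists_piece` with `κ = 1/2`, `subgrad`), and `ae_low`, `curved` apply. -/
theorem ae_relation2 (hω : IID μ ρ ω) (hρ : W_7d29a1_h46u.EM ρ) :
    ∀ᵐ v : Vec 1, ∀ h : Vec 1, (1 + chiS μ β ω h) * chiT μ β ω h ≤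
      2 * nuS μ β ω h v * chiS μ β ω h := by
  refine ae_tv ?_
  filter_upwards [ae_low (W_7d29a1_h46.lam_convex (β := β) hρ)] with v hv h
  have hc0 := chiS_nonneg (μ := μ) ω β h
  have hTc := chiT_le_chiS (β := β) one_pos hω hρ h
  have hc2 := chiS_le_half (β := β) one_pos hω hρ h
  rcases le_or_gt 1 (nuS μ β ω h (tv v)) with h1 | h1
  · set c : ℝ := chiS μ β ω h with hc
    calc (1 + c) * chiT μ β ω h ≤ (1 + c) * c := mul_le_mul_of_nonneg_left hTc (by linarith)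
      _ ≤ 2 * 1 * c := mul_le_mul_of_nonneg_right (by linarith) hc0
      _ ≤ 2 * nuS μ β ω h (tv v) * c := by
        refine mul_le_mul_of_nonneg_right ?_ hc0
        linarith
  · have h2 : nuT μ β ω h (tv v) < 1 := (nuT_le_nuS one_pos hω h (tv v)).trans_lt h1
    obtain ⟨a, ha1, ha2⟩ := exists_between h2
    obtain ⟨m, hm⟩ := exists_piece one_pos hω.meas ha1 (show (0 : ℝ) < 1 / 2 by norm_num)
    have e : h = tv (h 0) := (tv_zero_apply h).symm
    rw [e] at hm ⊢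
    refine curved hω hρ (hv (h 0) fun t => ?_)
    have h3 := subgrad hω hρ (by norm_num) ha2 hm (h 0 + t)
    have h4 : v * (h 0 + t - h 0) = v * t := by ring
    rw [h4] at h3
    exact h3

end Pool.Agent.W_7d29a1_h46s
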