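import Mathlib

/-!
Decoupling: a variable which is close to an independent copy of itself is close to its mean.
-/

namespace Pool.Agent.W_7d29a1_h46s

open MeasureTheory ProbabilityTheory Filter Topology

/-- Jensen for powers of the absolute value. -/
theorem dec_jensen {Ω : Type*} [MeasurableSpace Ω] {P : Measure Ω} [IsProbabilityMeasure P]
    {f : Ω → ℝ} (hf : Integrable f P) (q : ℕ) (hq : Integrable (fun w => |f w| ^ q) P) :
    |∫ w, f w ∂P| ^ q ≤ ∫ w, |f w| ^ q ∂P := by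
  calc |∫ w, f w ∂P| ^ q ≤ (∫ w, |f w| ∂P) ^ q := by
        gcongr
        exact abs_integral_le_integral_abs
    _ ≤ _ := by
        have := ConvexOn.map_integral_le (μ := P) (f := fun w => |f w|) (convexOn_pow (𝕜 := ℝ) q)
          (continuous_pow q).continuousOn isClosed_Ici
          (ae_of_all _ fun w => Set.mem_Ici.2 (abs_nonneg _)) hf.abs hq
        exact this

theorem dec_int {Ω : Type*} [MeasurableSpace Ω] {P : Measure Ω} [IsProbabilityMeasure P]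
    {f : Ω → ℝ} (hf : Measurable f) {C : ℝ} (hC : ∀ w, |f w| ≤ C) : Integrable f P :=
  Integrable.of_bound hf.aestronglyMeasurable C (ae_of_all _ fun w => by
    rw [Real.norm_eq_abs]; exact hC w)

theorem dec_int_pow {Ω : Type*} [MeasurableSpace Ω] {P : Measure Ω} [IsProbabilityMeasure P]
    {f : Ω → ℝ} (hf : Measurable f) {C : ℝ} (hC : ∀ w, |f w| ≤ C) (q : ℕ) :
    Integrable (fun w => |f w| ^ q) P := by
  refine dec_int (C := C ^ q) (hf.abs.pow_const q) fun w => ?_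
  rw [abs_of_nonneg (pow_nonneg (abs_nonneg _) _)]
  exact pow_le_pow_left₀ (abs_nonneg _) (hC w) q

theorem dec_indep {Ω : Type*} [MeasurableSpace Ω] {P : Measure Ω} [IsProbabilityMeasure P]
    {Y₀ Y₁ : Ω → ℝ} (hY₀ : Measurable Y₀)
    (hY₁ : Measurable Y₁) (hind : IndepFun Y₀ Y₁ P) (hid : IdentDistrib Y₀ Y₁ P P)
    {m M : ℝ} (hM : ∀ w, |Y₀ w - m| ≤ M ∧ |Y₁ w - m| ≤ M) (q : ℕ) :
    ∫ w, |Y₀ w - ∫ w', Y₀ w' ∂P| ^ q ∂P ≤ ∫ w, |Y₀ w - Y₁ w| ^ q ∂P := by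
  have hd : ∀ w w', |Y₀ w - Y₁ w'| ≤ 2 * M := fun w w' => by
    have h1 := abs_le.1 (hM w).1
    have h2 := abs_le.1 (hM w').2
    rw [abs_le]
    constructor <;> linarith
  have hmeas : Measurable fun z : ℝ × ℝ => |z.1 - z.2| ^ q := by fun_prop
  have hmeas2 : Measurable fun z : Ω × Ω => Y₀ z.1 - Y₁ z.2 :=
    (hY₀.comp measurable_fst).sub (hY₁.comp measurable_snd)
  have h1 : ∫ w, |Y₀ w - Y₁ w| ^ q ∂P = ∫ z, |Y₀ z.1 - Y₁ z.2| ^ q ∂(P.prod P) := by
    have e1 : ∫ w, |Y₀ w - Y₁ w| ^ q ∂P =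
        ∫ z : ℝ × ℝ, |z.1 - z.2| ^ q ∂(P.map fun w => (Y₀ w, Y₁ w)) := by
      rw [integral_map (hY₀.prodMk hY₁).aemeasurable hmeas.aestronglyMeasurable]
    have e2 : ∫ z, |Y₀ z.1 - Y₁ z.2| ^ q ∂(P.prod P) =
        ∫ z : ℝ × ℝ, |z.1 - z.2| ^ q ∂((P.prod P).map (Prod.map Y₀ Y₁)) := by
      rw [integral_map (hY₀.prodMap hY₁).aemeasurable hmeas.aestronglyMeasurable]
      rfl
    rw [e1, e2, (indepFun_iff_map_prod_eq_prod_map_map hY₀.aemeasurable hY₁.aemeasurable).1 hind,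
      Measure.map_prod_map _ _ hY₀ hY₁]
  have hi2 : Integrable (fun z : Ω × Ω => |Y₀ z.1 - Y₁ z.2| ^ q) (P.prod P) :=
    dec_int_pow (f := fun z : Ω × Ω => Y₀ z.1 - Y₁ z.2) hmeas2 (fun z => hd z.1 z.2) q
  rw [h1, integral_prod _ hi2]
  have hY0i : Integrable Y₀ P := by
    refine dec_int hY₀ (C := M + |m|) fun w => ?_
    have h1 := (hM w).1
    have h2 : |Y₀ w| ≤ |Y₀ w - m| + |m| := by
      have := abs_add_le (Y₀ w - m) m
      rwa [sub_add_cancel] at this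
    linarith
  have hY1i : Integrable Y₁ P := hid.integrable_iff.1 hY0i
  have hmean : ∫ w, Y₀ w ∂P = ∫ w, Y₁ w ∂P := hid.integral_eq
  refine integral_mono ?_ hi2.integral_prod_left fun w => ?_
  · refine dec_int_pow (f := fun w => Y₀ w - ∫ w', Y₀ w' ∂P) (hY₀.sub_const _) (C := 2 * M)
      (fun w => ?_) q
    rw [hmean]
    have e : Y₀ w - ∫ w', Y₁ w' ∂P = ∫ w', (Y₀ w - Y₁ w') ∂P := by
      rw [integral_sub (integrable_const _) hY1i]; simp
    rw [e]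
    have := norm_integral_le_of_norm_le_const (μ := P) (f := fun w' => Y₀ w - Y₁ w')
      (ae_of_all _ fun w' => by rw [Real.norm_eq_abs]; exact hd w w')
    simpa using this
  · show |Y₀ w - ∫ w', Y₀ w' ∂P| ^ q ≤ ∫ w', |Y₀ w - Y₁ w'| ^ q ∂P
    rw [hmean]
    have e : Y₀ w - ∫ w', Y₁ w' ∂P = ∫ w', (Y₀ w - Y₁ w') ∂P := by
      rw [integral_sub (integrable_const _) hY1i]; simp
    rw [e]
    exact dec_jensen ((integrable_const _).sub hY1i) q
      (dec_int_pow (f := fun w' => Y₀ w - Y₁ w') (measurable_const.sub hY₁) (hd w) q)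

theorem dec_three (a b c : ℝ) (ha : 0 ≤ a) (hb : 0 ≤ b) (hc : 0 ≤ c) (q : ℕ) :
    (a + b + c) ^ q ≤ 3 ^ q * (a ^ q + b ^ q + c ^ q) := by
  have h1 : a + b + c ≤ 3 * max (max a b) c := by
    have h1 : a ≤ max (max a b) c := le_trans (le_max_left _ _) (le_max_left _ _)
    have h2 : b ≤ max (max a b) c := le_trans (le_max_right _ _) (le_max_left _ _)
    have h3 : c ≤ max (max a b) c := le_max_right _ _
    linarith
  have h2 : (max (max a b) c) ^ q ≤ a ^ q + b ^ q + c ^ q := by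
    have pa := pow_nonneg ha q
    have pb := pow_nonneg hb q
    have pc := pow_nonneg hc q
    rcases max_choice (max a b) c with h | h
    · rw [h]
      rcases max_choice a b with h' | h' <;> rw [h'] <;> linarith
    · rw [h]; linarith
  calc (a + b + c) ^ q ≤ (3 * max (max a b) c) ^ q :=
        pow_le_pow_left₀ (by positivity) h1 q
    _ = 3 ^ q * (max (max a b) c) ^ q := mul_pow _ _ _
    _ ≤ _ := by gcongr

theorem dec_two (a b : ℝ) (ha : 0 ≤ a) (hb : 0 ≤ b) (q : ℕ) :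
    (a + b) ^ q ≤ 2 ^ q * (a ^ q + b ^ q) := by
  have h1 : a + b ≤ 2 * max a b := by
    have h1 : a ≤ max a b := le_max_left _ _
    have h2 : b ≤ max a b := le_max_right _ _
    linarith
  have h2 : (max a b) ^ q ≤ a ^ q + b ^ q := by
    have pa := pow_nonneg ha q
    have pb := pow_nonneg hb q
    rcases max_choice a b with h | h <;> rw [h] <;> linarith
  calc (a + b) ^ q ≤ (2 * max a b) ^ q :=
        pow_le_pow_left₀ (by positivity) h1 q
    _ = 2 ^ q * (max a b) ^ q := mul_pow _ _ _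
    _ ≤ _ := by gcongr

/-- Cauchy-Schwarz on a set. -/
theorem dec_cs {Ω : Type*} [MeasurableSpace Ω] {P : Measure Ω} [IsProbabilityMeasure P]
    {f : Ω → ℝ} (hf : Measurable f) (hf0 : ∀ w, 0 ≤ f w) (hi : Integrable (fun w => f w ^ 2) P)
    {A : Set Ω} (hA : MeasurableSet A) :
    ∫ w, A.indicator (fun _ => (1 : ℝ)) w * f w ∂P ≤
      Real.sqrt (∫ w, f w ^ 2 ∂P) * Real.sqrt (P.real A) := by
  have hL : MemLp f 2 P := (memLp_two_iff_integrable_sq hf.aestronglyMeasurable).2 hi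
  have hL1 : MemLp (A.indicator fun _ => (1 : ℝ)) 2 P :=
    (memLp_const (1 : ℝ)).indicator hA
  have h := integral_mul_le_Lp_mul_Lq_of_nonneg (μ := P) (p := 2) (q := 2)
    Real.HolderConjugate.two_two (f := A.indicator fun _ => (1 : ℝ)) (g := f)
    (ae_of_all _ fun w => Set.indicator_nonneg (fun _ _ => zero_le_one) w)
    (ae_of_all _ hf0) (by simpa using hL1) (by simpa using hL)
  have e1 : ∫ w, (A.indicator (fun _ => (1 : ℝ)) w) ^ (2 : ℝ) ∂P = P.real A := by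
    have : (fun w => (A.indicator (fun _ => (1 : ℝ)) w) ^ (2 : ℝ)) =
        A.indicator fun _ => (1 : ℝ) := by
      funext w
      by_cases hw : w ∈ A <;> simp [hw]
    rw [this, integral_indicator_const _ hA]
    simp
  have e2 : ∫ w, (f w) ^ (2 : ℝ) ∂P = ∫ w, f w ^ 2 ∂P := by
    refine integral_congr_ae (ae_of_all _ fun w => ?_)
    show (f w) ^ (2 : ℝ) = f w ^ 2
    rw [← Real.rpow_natCast]; norm_num
  rw [e1, e2, ← Real.sqrt_eq_rpow, ← Real.sqrt_eq_rpow] at h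
  rw [mul_comm (Real.sqrt (∫ w, f w ^ 2 ∂P))]
  exact h

/-- TASK Dec. `|X₀ - m| ≤ |X₀ - Y₀| + |Y₀ - E Y₀| + |E Y₀ - m|`, `|E Y₀ - m| ≤ E |X₀ - Y₀|`, so
`E |X₀ - m|^q ≤ 3^q (2 E |X₀ - Y₀|^q + E |Y₀ - E Y₀|^q)`; by independence and Jensen
`E |Y₀ - E Y₀|^q ≤ E |Y₀ - Y₁|^q` (law of `(Y₀, Y₁)` is the product measure, `E Y₁ = E Y₀`);
`|Y₀ - Y₁| ≤ D + 2 c` on `G` and `≤ 2 M` everywhere; `|X₀ - Y₀| ≤ c` on `G`, and off `G`
`|X₀ - Y₀|^q ≤ 2^q (|X₀ - m|^q + M^q)` with `E (|X₀ - m|^q 1_{Gᶜ}) ≤ √(E |X₀ - m|^(2q)) √(P Gᶜ)`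
(Cauchy–Schwarz / `integral_mul_le_Lp_mul_Lq`). -/
theorem dec {Ω : Type*} [MeasurableSpace Ω] {P : Measure Ω} [IsProbabilityMeasure P]
    {X₀ X₁ Y₀ Y₁ : Ω → ℝ} (hX₀ : Measurable X₀) (hX₁ : Measurable X₁) (hY₀ : Measurable Y₀)
    (hY₁ : Measurable Y₁) (hind : IndepFun Y₀ Y₁ P) (hid : IdentDistrib Y₀ Y₁ P P)
    {m M c D B p : ℝ} (hM0 : 0 ≤ M) (hc0 : 0 ≤ c) (hD0 : 0 ≤ D) (hm : ∫ w, X₀ w ∂P = m)
    (hXi : Integrable X₀ P) (hM : ∀ w, |Y₀ w - m| ≤ M ∧ |Y₁ w - m| ≤ M) {G : Set Ω}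
    (hGm : MeasurableSet G)
    (hG : ∀ w ∈ G, |X₀ w - Y₀ w| ≤ c ∧ |X₁ w - Y₁ w| ≤ c ∧ |X₀ w - X₁ w| ≤ D)
    (hp : P.real Gᶜ ≤ p) (q : ℕ) (hBi : Integrable (fun w => |X₀ w - m| ^ (2 * q)) P)
    (hB : ∫ w, |X₀ w - m| ^ (2 * q) ∂P ≤ B) :
    ∫ w, |X₀ w - m| ^ q ∂P ≤
      3 ^ q * (2 * (c ^ q + 2 ^ q * (Real.sqrt B * Real.sqrt p + M ^ q * p)) +
        ((D + 2 * c) ^ q + (2 * M) ^ q * p)) := by
  classical
  have hGc := hGm.compl
  have hI : ∀ w, Gᶜ.indicator (fun _ => (1 : ℝ)) w = if w ∈ G then 0 else 1 := fun w => by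
    by_cases hw : w ∈ G <;> simp [hw]
  have hIi : Integrable (Gᶜ.indicator fun _ => (1 : ℝ)) P :=
    (integrable_const (1 : ℝ)).indicator hGc
  have hIint : ∫ w, Gᶜ.indicator (fun _ => (1 : ℝ)) w ∂P = P.real Gᶜ := by
    rw [integral_indicator_const _ hGc]; simp
  have hY0i : Integrable Y₀ P := by
    refine dec_int hY₀ (C := M + |m|) fun w => ?_
    have h1 := (hM w).1
    have h2 : |Y₀ w| ≤ |Y₀ w - m| + |m| := by
      have := abs_add_le (Y₀ w - m) m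
      rwa [sub_add_cancel] at this
    linarith
  -- integrability of the `q`-th power
  have hXq : Integrable (fun w => |X₀ w - m| ^ q) P := by
    refine Integrable.mono' ((integrable_const (1 : ℝ)).add hBi)
      ((hX₀.sub_const m).abs.pow_const q).aestronglyMeasurable (ae_of_all _ fun w => ?_)
    rw [Real.norm_eq_abs, abs_of_nonneg (by positivity)]
    show |X₀ w - m| ^ q ≤ 1 + |X₀ w - m| ^ (2 * q)
    have h0 : 0 ≤ |X₀ w - m| ^ q := by positivity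
    rw [mul_comm 2 q, pow_mul]
    nlinarith [sq_nonneg (|X₀ w - m| ^ q - 1)]
  -- off the good set
  have hsq : Integrable (fun w => (|X₀ w - m| ^ q) ^ 2) P := by
    simpa [← pow_mul, mul_comm] using hBi
  have hcs := dec_cs (P := P) (f := fun w => |X₀ w - m| ^ q)
    ((hX₀.sub_const m).abs.pow_const q) (fun w => by positivity) hsq hGc
  have hcs' : ∫ w, Gᶜ.indicator (fun _ => (1 : ℝ)) w * |X₀ w - m| ^ q ∂P ≤
      Real.sqrt B * Real.sqrt p := by
    refine hcs.trans (mul_le_mul (Real.sqrt_le_sqrt ?_) (Real.sqrt_le_sqrt hp)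
      (Real.sqrt_nonneg _) (Real.sqrt_nonneg _))
    refine le_trans (le_of_eq ?_) hB
    refine integral_congr_ae (ae_of_all _ fun w => ?_)
    show (|X₀ w - m| ^ q) ^ 2 = |X₀ w - m| ^ (2 * q)
    rw [← pow_mul, mul_comm]
  have hIX : Integrable (fun w => Gᶜ.indicator (fun _ => (1 : ℝ)) w * |X₀ w - m| ^ q) P := by
    refine hXq.mono' ((measurable_const.indicator hGc).mul
      ((hX₀.sub_const m).abs.pow_const q)).aestronglyMeasurable (ae_of_all _ fun w => ?_)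
    have h0 : 0 ≤ |X₀ w - m| ^ q := by positivity
    rw [hI w]
    split_ifs <;> simp
  -- the difference `X₀ - Y₀`
  have hDpt : ∀ w, |X₀ w - Y₀ w| ^ q ≤ c ^ q + 2 ^ q *
      (Gᶜ.indicator (fun _ => (1 : ℝ)) w * |X₀ w - m| ^ q +
        M ^ q * Gᶜ.indicator (fun _ => (1 : ℝ)) w) := by
    intro w
    rw [hI w]
    split_ifs with hw
    · have := pow_le_pow_left₀ (abs_nonneg _) (hG w hw).1 q
      simpa using this
    · have h1 : |X₀ w - Y₀ w| ≤ |X₀ w - m| + M := by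
        have h2 := abs_sub_le (X₀ w) m (Y₀ w)
        have h3 := (hM w).1
        rw [abs_sub_comm m] at h2
        linarith
      have h2 := pow_le_pow_left₀ (abs_nonneg _) h1 q
      have h3 := dec_two |X₀ w - m| M (abs_nonneg _) hM0 q
      have h4 : 0 ≤ c ^ q := by positivity
      have h5 : (2 : ℝ) ^ q * (1 * |X₀ w - m| ^ q + M ^ q * 1) =
        2 ^ q * (|X₀ w - m| ^ q + M ^ q) := by ring
      rw [h5]
      linarith
  have hbdi : Integrable (fun w => c ^ q + 2 ^ q *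
      (Gᶜ.indicator (fun _ => (1 : ℝ)) w * |X₀ w - m| ^ q +
        M ^ q * Gᶜ.indicator (fun _ => (1 : ℝ)) w)) P :=
    (integrable_const _).add ((hIX.add (hIi.const_mul _)).const_mul _)
  have hDi : Integrable (fun w => |X₀ w - Y₀ w| ^ q) P := by
    refine hbdi.mono' ((hX₀.sub hY₀).abs.pow_const q).aestronglyMeasurable
      (ae_of_all _ fun w => ?_)
    rw [Real.norm_eq_abs, abs_of_nonneg (by positivity)]
    exact hDpt w
  have hDint : ∫ w, |X₀ w - Y₀ w| ^ q ∂P ≤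
      c ^ q + 2 ^ q * (Real.sqrt B * Real.sqrt p + M ^ q * p) := by
    refine (integral_mono hDi hbdi hDpt).trans ?_
    have hb1 : Integrable (fun w => Gᶜ.indicator (fun _ => (1 : ℝ)) w * |X₀ w - m| ^ q +
        M ^ q * Gᶜ.indicator (fun _ => (1 : ℝ)) w) P := hIX.add (hIi.const_mul _)
    rw [integral_add (integrable_const _) (hb1.const_mul _), integral_const_mul,
      integral_add hIX (hIi.const_mul _), integral_const_mul, hIint]
    have h6 : M ^ q * P.real Gᶜ ≤ M ^ q * p := by gcongr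
    have h7 : ∫ _ : Ω, c ^ q ∂P = c ^ q := by simp
    rw [h7]
    gcongr
  -- the mean of `Y₀`
  have hmean : |∫ w, Y₀ w ∂P - m| ^ q ≤ ∫ w, |X₀ w - Y₀ w| ^ q ∂P := by
    have e : |∫ w, Y₀ w ∂P - m| = |∫ w, (X₀ w - Y₀ w) ∂P| := by
      rw [integral_sub hXi hY0i, hm, abs_sub_comm]
    rw [e]
    exact dec_jensen (hXi.sub hY0i) q hDi
  -- the two copies
  have hYpt : ∀ w, |Y₀ w - Y₁ w| ^ q ≤
      (D + 2 * c) ^ q + (2 * M) ^ q * Gᶜ.indicator (fun _ => (1 : ℝ)) w := by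
    intro w
    rw [hI w]
    split_ifs with hw
    · obtain ⟨g1, g2, g3⟩ := hG w hw
      have h1 : |Y₀ w - Y₁ w| ≤ D + 2 * c := by
        rw [abs_le] at g1 g2 g3 ⊢
        constructor <;> linarith [g1.1, g1.2, g2.1, g2.2, g3.1, g3.2]
      have := pow_le_pow_left₀ (abs_nonneg _) h1 q
      simpa using this
    · have h1 : |Y₀ w - Y₁ w| ≤ 2 * M := by
        have g1 := abs_le.1 (hM w).1
        have g2 := abs_le.1 (hM w).2
        rw [abs_le]
        constructor <;> linarith [g1.1, g1.2, g2.1, g2.2]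
      have h2 := pow_le_pow_left₀ (abs_nonneg _) h1 q
      have h3 : 0 ≤ (D + 2 * c) ^ q := by positivity
      rw [mul_one]
      linarith
  have hYi : Integrable (fun w => |Y₀ w - Y₁ w| ^ q) P := by
    refine dec_int_pow (f := fun w => Y₀ w - Y₁ w) (hY₀.sub hY₁) (C := 2 * M) (fun w => ?_) q
    have g1 := abs_le.1 (hM w).1
    have g2 := abs_le.1 (hM w).2
    rw [abs_le]
    constructor <;> linarith [g1.1, g1.2, g2.1, g2.2]
  have hYint : ∫ w, |Y₀ w - Y₁ w| ^ q ∂P ≤ (D + 2 * c) ^ q + (2 * M) ^ q * p := by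
    have hb2 : Integrable (fun w => (D + 2 * c) ^ q +
        (2 * M) ^ q * Gᶜ.indicator (fun _ => (1 : ℝ)) w) P :=
      (integrable_const _).add (hIi.const_mul _)
    refine (integral_mono hYi hb2 hYpt).trans ?_
    rw [integral_add (integrable_const _) (hIi.const_mul _), integral_const_mul, hIint]
    have h7 : ∫ _ : Ω, (D + 2 * c) ^ q ∂P = (D + 2 * c) ^ q := by simp
    rw [h7]
    gcongr
  have hYmean := (dec_indep hY₀ hY₁ hind hid hM q).trans hYint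
  -- conclusion
  have hEi : Integrable (fun w => |Y₀ w - ∫ w', Y₀ w' ∂P| ^ q) P := by
    refine dec_int_pow (f := fun w => Y₀ w - ∫ w', Y₀ w' ∂P) (hY₀.sub_const _)
      (C := M + |m| + |∫ w', Y₀ w' ∂P|) (fun w => ?_) q
    have h1 := (hM w).1
    have h2 : |Y₀ w| ≤ |Y₀ w - m| + |m| := by
      have := abs_add_le (Y₀ w - m) m
      rwa [sub_add_cancel] at this
    have h3 := abs_sub (Y₀ w) (∫ w', Y₀ w' ∂P)
    linarith
  have hpt : ∀ w, |X₀ w - m| ^ q ≤ 3 ^ q * (|X₀ w - Y₀ w| ^ q +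
      |Y₀ w - ∫ w', Y₀ w' ∂P| ^ q + |∫ w', Y₀ w' ∂P - m| ^ q) := by
    intro w
    have h1 : |X₀ w - m| ≤ |X₀ w - Y₀ w| + |Y₀ w - ∫ w', Y₀ w' ∂P| +
        |∫ w', Y₀ w' ∂P - m| := by
      have h2 := abs_sub_le (X₀ w) (Y₀ w) m
      have h3 := abs_sub_le (Y₀ w) (∫ w', Y₀ w' ∂P) m
      linarith
    exact (pow_le_pow_left₀ (abs_nonneg _) h1 q).trans
      (dec_three _ _ _ (abs_nonneg _) (abs_nonneg _) (abs_nonneg _) q)
  have hfi : Integrable (fun w => 3 ^ q * (|X₀ w - Y₀ w| ^ q +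
      |Y₀ w - ∫ w', Y₀ w' ∂P| ^ q + |∫ w', Y₀ w' ∂P - m| ^ q)) P :=
    ((hDi.add hEi).add (integrable_const _)).const_mul _
  refine (integral_mono hXq hfi hpt).trans ?_
  have hb3 : Integrable (fun w => |X₀ w - Y₀ w| ^ q + |Y₀ w - ∫ w', Y₀ w' ∂P| ^ q) P :=
    hDi.add hEi
  rw [integral_const_mul, integral_add hb3 (integrable_const _), integral_add hDi hEi]
  have h7 : ∫ _ : Ω, |∫ w', Y₀ w' ∂P - m| ^ q ∂P = |∫ w', Y₀ w' ∂P - m| ^ q := by simp
  rw [h7]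
  refine mul_le_mul_of_nonneg_left ?_ (by positivity)
  linarith

end Pool.Agent.W_7d29a1_h46s
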