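import Pool.Agent.W_7d29a1_h46.Bul
import Pool.Agent.W_7d29a1_h47q.LgvU

/-!
The inequality `χ ≤ 2 ν - 1` in dimension one: definitions (model on `ℤ` of `W_7d29a1_h47`).
-/

namespace Pool.Agent.W_7d29a1_h46s

open MeasureTheory ProbabilityTheory Filter Topology Pool.Agent.W_7d29a1_h47
  Pool.Agent.W_7d29a1_h46

/-- The fluctuations near the tilt `h` are at most of order `n ^ x`. -/
def FlZ (μ : Measure ℝ) (h x : ℝ) : Prop :=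
  ∀ q : ℕ, ∃ δ > 0, ∃ C : ℝ, ∀ h' : ℝ, |h' - h| < δ → ∀ n : ℕ, 1 ≤ n →
    ∫ g, |Real.log (Z g h' 0 0 n) - a μ h' n| ^ q ∂(law μ) ≤ C * (n : ℝ) ^ (x * q)

/-- Rate of convergence of the free energy near the tilt `h`. -/
def RtZ (μ : Measure ℝ) (h y : ℝ) : Prop :=
  ∃ δ > 0, ∃ C : ℝ, 0 ≤ C ∧ ∀ h' : ℝ, |h' - h| < δ → ∀ n : ℕ, 1 ≤ n →
    n * Lam μ h' - a μ h' n ≤ C * (n : ℝ) ^ y

/-- The polymer with tilt `h` stays in the tube of radius `n ^ e` around the direction `v`. -/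
def TbZ (μ : Measure ℝ) (h v e : ℝ) : Prop :=
  ∀ q : ℕ, ∃ C : ℝ, ∀ n : ℕ, 1 ≤ n →
    ∫ g, (1 - TM g h v ((n : ℝ) ^ e) n) ∂(law μ) ≤ C * (n : ℝ) ^ (-(q : ℝ))

/-- Curvature of the free energy at `h` from below, with slope `v`. -/
def CvL (L : ℝ → ℝ) (h v : ℝ) : Prop :=
  ∃ c > 0, ∃ δ > 0, ∀ t : ℝ, |t| ≤ δ → L h + v * t + c * t ^ 2 ≤ L (h + t)

open Classical in
/-- The total weight of the walks started at `(0, y)` in the tube `|S_i - y - i v| ≤ r`. -/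
noncomputable def WT (g : Env) (h v r : ℝ) (y : ℤ) (n : ℕ) : ℝ :=
  ∑ s ∈ T n, if (∀ i ≤ n, |(pos s i : ℝ) - i * v| ≤ r) then wt g h 0 y n s else 0

/-- The logarithm of `WT`, clipped to the interval `[m - M, m + M]`. -/
noncomputable def YT (g : Env) (h v r : ℝ) (y : ℤ) (n : ℕ) (m M : ℝ) : ℝ :=
  max (m - M) (min (m + M) (Real.log (WT g h v r y n)))

/-- The good event. -/
structure GS (μ : Measure ℝ) (h s u v r : ℝ) (ℓ τ n : ℕ) (g : Env) : Prop where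
  m0 : 1 / 2 ≤ WT g h v r 0 n / Z g h 0 0 n
  m1 : 1 / 2 ≤ WT g h v r ℓ n / Z g h 0 ℓ n
  b0 : ∀ y : ℤ, y = 0 ∨ y = ℓ → |Real.log (Z g h 0 y τ) - a μ h τ| ≤ u
  b1 : ∀ y : ℤ, y = 0 ∨ y = ℓ → |Real.log (Z g (h + s) 0 y τ) - a μ (h + s) τ| ≤ u
  b2 : ∀ y : ℤ, y = 0 ∨ y = ℓ → |Real.log (Z g (h - s) 0 y τ) - a μ (h - s) τ| ≤ u

end Pool.Agent.W_7d29a1_h46s
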