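import Pool.Agent.W_7d29a1_h46s.Defs

/-!
Comparison of two starting points (planarity).
-/

namespace Pool.Agent.W_7d29a1_h46s

open MeasureTheory ProbabilityTheory Filter Topology Pool.Agent.W_7d29a1_h47
  Pool.Agent.W_7d29a1_h46

/-- Sums over walks of a function of the end point. -/
lemma Det_num (g : Env) (h : ℝ) (t : ℕ) (x : ℤ) {S : Finset ℤ}
    (hS : Finset.Icc (x - t) (x + t) ⊆ S) (G : ℤ → ℝ) :
    ∑ s ∈ T t, wt g h 0 x t s * G (x + pos s t) =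
      Real.exp (-(h * x)) * ∑ z ∈ S, Real.exp (h * z) * Zp g 0 x t z * G z := by
  have h1 : ∀ z ∈ S, Real.exp (h * z) * Zp g 0 x t z * G z =
      ∑ s ∈ T t, if x + pos s t = z then
        Real.exp (h * z) * Real.exp (En g 0 x t s) * G z else 0 := by
    intro z _
    unfold Zp
    rw [Finset.mul_sum, Finset.sum_mul]
    refine Finset.sum_congr rfl fun s _ => ?_
    split_ifs <;> simp
  rw [Finset.sum_congr rfl h1, Finset.sum_comm, Finset.mul_sum]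
  refine Finset.sum_congr rfl fun s _ => ?_
  rw [Finset.sum_ite_eq, if_pos (hS (pos_mem_Icc s t x))]
  unfold wt
  rw [← Real.exp_add, ← mul_assoc, ← Real.exp_add]
  congr 2
  push_cast
  ring

/-- Sums over walks of length `τ + b` of a function of the position at time `τ`. -/
lemma Det_split (g : Env) (h : ℝ) (τ b : ℕ) (x : ℤ) {S : Finset ℤ}
    (hS : Finset.Icc (x - τ) (x + τ) ⊆ S) (P : ℤ → Prop) :
    ∑ s ∈ T (τ + b), wt g h 0 x (τ + b) s * ind (P (x + pos s τ)) =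
      Real.exp (-(h * x)) * ∑ z ∈ S, Real.exp (h * z) * Zp g 0 x τ z *
        (ind (P z) * Z g h τ z b) := by
  rw [← Det_num g h τ x hS fun z => ind (P z) * Z g h τ z b, sum_split]
  refine Finset.sum_congr rfl fun s _ => ?_
  have h1 : ∀ r ∈ T b, wt g h 0 x (τ + b) (glue τ s r) *
      ind (P (x + pos (glue τ s r) τ)) =
      wt g h 0 x τ s * ind (P (x + pos s τ)) * wt g h τ (x + pos s τ) b r := by
    intro r _
    rw [wt_glue, pos_glue_le le_rfl, zero_add]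
    ring
  rw [Finset.sum_congr rfl h1, ← Finset.mul_sum]
  change _ * Z g h τ (x + pos s τ) b = _
  ring

lemma Det_Z (g : Env) (h : ℝ) (τ b : ℕ) (x : ℤ) {S : Finset ℤ}
    (hS : Finset.Icc (x - τ) (x + τ) ⊆ S) :
    Z g h 0 x (τ + b) = Real.exp (-(h * x)) * ∑ z ∈ S, Real.exp (h * z) * Zp g 0 x τ z *
        Z g h τ z b := by
  have h1 := Det_split g h τ b x hS (fun _ => True)
  simp only [ind_true trivial, mul_one, one_mul] at h1
  exact h1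

/-- TASK Det1. Decomposition at time `τ` with total positivity. Write `F y = e^{h y} Z g h τ y (n - τ)`. Then
`e^{h ℓ} Z g h 0 ℓ n · Av(ind (ℓ + pos p τ ≤ z)) = ∑_{y ≤ z} Zp g 0 ℓ τ y F y`
(`sum_split`, `wt_glue`; compare `LgvU_num` in `W_7d29a1_h47q/LgvU.lean`), and `Z g h 0 0 n =
∑_y Zp g 0 0 τ y F y`. By `U_le`, `(1/2) e^{h ℓ} Z g h 0 ℓ n ≤ e^{U} Z g h 0 0 n` with `U = Uz g τ ℓ z`, and
`U ≤ uh g (h + s) τ ℓ + log 2` by `uh_up`; insert the definition of `uh` and take logarithms. -/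
theorem det_up (g : Env) {h s : ℝ} {τ n ℓ : ℕ} (hτ : τ ≤ n) (hℓ : 0 < ℓ) (hℓ2 : ℓ % 2 = 0)
    {z : ℤ} (h0 : Reach 0 τ z) (h1 : Reach ℓ τ z)
    (hp1 : 1 / 2 ≤ Av g h 0 ℓ n (fun p => ind ((ℓ : ℤ) + pos p τ ≤ z)))
    (hp2 : 1 / 2 ≤ Av g (h + s) 0 0 τ (fun p => ind (z ≤ pos p τ))) :
    Real.log (Z g h 0 ℓ n) ≤ Real.log (Z g h 0 0 n) + s * ℓ +
      (Real.log (Z g (h + s) 0 ℓ τ) - Real.log (Z g (h + s) 0 0 τ)) + 2 * Real.log 2 := by
  obtain ⟨b, rfl⟩ := Nat.exists_eq_add_of_le hτ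
  obtain ⟨S, hSA, hSB⟩ : ∃ S : Finset ℤ, Finset.Icc (-(τ : ℤ)) τ ⊆ S ∧
      Finset.Icc ((ℓ : ℤ) - τ) (ℓ + τ) ⊆ S :=
    ⟨_, Finset.subset_union_left, Finset.subset_union_right⟩
  have hZ := Z_pos g h 0 ℓ (τ + b)
  have hZ0 := Z_pos g h 0 0 (τ + b)
  have e0 := Det_Z g h τ b 0 (S := S) (by simpa using hSA)
  simp only [Int.cast_zero, mul_zero, neg_zero, Real.exp_zero, one_mul] at e0
  have e1 := Det_split g h τ b ℓ (S := S) hSB (fun y => y ≤ z)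
  unfold Av at hp1
  rw [e1, le_div_iff₀ hZ] at hp1
  have h3 : ∑ y ∈ S, Real.exp (h * y) * Zp g 0 ℓ τ y * (ind (y ≤ z) * Z g h τ y b) ≤
      Real.exp (Uz g τ ℓ z) * Z g h 0 0 (τ + b) := by
    rw [e0, Finset.mul_sum]
    refine Finset.sum_le_sum fun y _ => ?_
    have hZb := Z_pos g h τ y b
    by_cases hz : y ≤ z
    · rw [ind_true hz, one_mul]
      have h4 := U_le g hℓ hℓ2 h0 h1 hz
      calc Real.exp (h * y) * Zp g 0 ℓ τ y * Z g h τ y b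
          ≤ Real.exp (h * y) * (Real.exp (Uz g τ ℓ z) * Zp g 0 0 τ y) * Z g h τ y b :=
            mul_le_mul_of_nonneg_right (mul_le_mul_of_nonneg_left h4 (Real.exp_pos _).le) hZb.le
        _ = Real.exp (Uz g τ ℓ z) * (Real.exp (h * y) * Zp g 0 0 τ y * Z g h τ y b) := by ring
    · rw [ind_false hz, zero_mul, mul_zero]
      exact mul_nonneg (Real.exp_pos _).le
        (mul_nonneg (mul_nonneg (Real.exp_pos _).le (Zp_nonneg _ _ _ _ _)) hZb.le)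
  have h5 : Real.exp (h * ℓ) * Z g h 0 ℓ (τ + b) ≤
      2 * (Real.exp (Uz g τ ℓ z) * Z g h 0 0 (τ + b)) := by
    have h6 := mul_le_mul_of_nonneg_left hp1 (Real.exp_pos (h * ℓ)).le
    have h8 : Real.exp (h * ℓ) * (Real.exp (-(h * ((ℓ : ℤ) : ℝ))) *
        ∑ y ∈ S, Real.exp (h * y) * Zp g 0 ℓ τ y * (ind (y ≤ z) * Z g h τ y b)) =
        ∑ y ∈ S, Real.exp (h * y) * Zp g 0 ℓ τ y * (ind (y ≤ z) * Z g h τ y b) := by
      rw [← mul_assoc, ← Real.exp_add]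
      simp
    rw [h8] at h6
    linarith
  have h7 := Real.log_le_log (mul_pos (Real.exp_pos _) hZ) h5
  rw [Real.log_mul two_ne_zero (mul_pos (Real.exp_pos _) hZ0).ne',
    Real.log_mul (Real.exp_pos (Uz g τ ℓ z)).ne' hZ0.ne', Real.log_exp,
    Real.log_mul (Real.exp_pos _).ne' hZ.ne', Real.log_exp] at h7
  have h9 := uh_up g hℓ hℓ2 h0 h1 hp2
  unfold uh at h9
  linarith

/-- TASK Det2. As `det_up`: `(1/2) Z g h 0 0 n ≤ ∑_{y ≥ z} Zp g 0 0 τ y F y ≤ e^{-U} e^{h ℓ} Z g h 0 ℓ n` by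
`U_ge`, and `uh g (h - s) τ ℓ ≤ U + log 2` by `uh_dn`. -/
theorem det_dn (g : Env) {h s : ℝ} {τ n ℓ : ℕ} (hτ : τ ≤ n) (hℓ : 0 < ℓ) (hℓ2 : ℓ % 2 = 0)
    {z : ℤ} (h0 : Reach 0 τ z) (h1 : Reach ℓ τ z)
    (hp1 : 1 / 2 ≤ Av g h 0 0 n (fun p => ind (z ≤ pos p τ)))
    (hp2 : 1 / 2 ≤ Av g (h - s) 0 ℓ τ (fun p => ind ((ℓ : ℤ) + pos p τ ≤ z))) :
    Real.log (Z g h 0 0 n) ≤ Real.log (Z g h 0 ℓ n) + s * ℓ +
      (Real.log (Z g (h - s) 0 0 τ) - Real.log (Z g (h - s) 0 ℓ τ)) + 2 * Real.log 2 := by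
  obtain ⟨b, rfl⟩ := Nat.exists_eq_add_of_le hτ
  obtain ⟨S, hSA, hSB⟩ : ∃ S : Finset ℤ, Finset.Icc (-(τ : ℤ)) τ ⊆ S ∧
      Finset.Icc ((ℓ : ℤ) - τ) (ℓ + τ) ⊆ S :=
    ⟨_, Finset.subset_union_left, Finset.subset_union_right⟩
  have hZ := Z_pos g h 0 ℓ (τ + b)
  have hZ0 := Z_pos g h 0 0 (τ + b)
  have e0 := Det_Z g h τ b ℓ (S := S) hSB
  have e1 := Det_split g h τ b 0 (S := S) (by simpa using hSA) (fun y => z ≤ y)
  simp only [Int.cast_zero, mul_zero, neg_zero, Real.exp_zero, one_mul, zero_add] at e1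
  unfold Av at hp1
  rw [e1, le_div_iff₀ hZ0] at hp1
  have e2 : Real.exp (h * ℓ) * Z g h 0 ℓ (τ + b) =
      ∑ y ∈ S, Real.exp (h * y) * Zp g 0 ℓ τ y * Z g h τ y b := by
    rw [e0, ← mul_assoc, ← Real.exp_add]
    simp
  have h3 : Real.exp (Uz g τ ℓ z) *
      ∑ y ∈ S, Real.exp (h * y) * Zp g 0 0 τ y * (ind (z ≤ y) * Z g h τ y b) ≤
      Real.exp (h * ℓ) * Z g h 0 ℓ (τ + b) := by
    rw [e2, Finset.mul_sum]
    refine Finset.sum_le_sum fun y _ => ?_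
    have hZb := Z_pos g h τ y b
    by_cases hz : z ≤ y
    · rw [ind_true hz, one_mul]
      have h4 := U_ge g hℓ hℓ2 h0 h1 hz
      calc Real.exp (Uz g τ ℓ z) * (Real.exp (h * y) * Zp g 0 0 τ y * Z g h τ y b)
          = Real.exp (h * y) * (Real.exp (Uz g τ ℓ z) * Zp g 0 0 τ y) * Z g h τ y b := by ring
        _ ≤ Real.exp (h * y) * Zp g 0 ℓ τ y * Z g h τ y b :=
          mul_le_mul_of_nonneg_right (mul_le_mul_of_nonneg_left h4 (Real.exp_pos _).le) hZb.le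
    · rw [ind_false hz, zero_mul, mul_zero, mul_zero]
      exact mul_nonneg (mul_nonneg (Real.exp_pos _).le (Zp_nonneg _ _ _ _ _)) hZb.le
  have h5 : Real.exp (Uz g τ ℓ z) * Z g h 0 0 (τ + b) ≤
      2 * (Real.exp (h * ℓ) * Z g h 0 ℓ (τ + b)) := by
    have h6 := mul_le_mul_of_nonneg_left hp1 (Real.exp_pos (Uz g τ ℓ z)).le
    linarith
  have h7 := Real.log_le_log (mul_pos (Real.exp_pos _) hZ0) h5
  rw [Real.log_mul two_ne_zero (mul_pos (Real.exp_pos _) hZ).ne',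
    Real.log_mul (Real.exp_pos (Uz g τ ℓ z)).ne' hZ0.ne', Real.log_exp,
    Real.log_mul (Real.exp_pos _).ne' hZ.ne', Real.log_exp] at h7
  have h9 := uh_dn g hℓ hℓ2 h0 h1 hp2
  unfold uh at h9
  linarith

end Pool.Agent.W_7d29a1_h46s
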