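import Pool.Agent.W_7d29a1_h46s.Defs

/-!
Exit bounds, reachable points, and the position in the tube.
-/

namespace Pool.Agent.W_7d29a1_h46s

open MeasureTheory ProbabilityTheory Filter Topology Pool.Agent.W_7d29a1_h47
  Pool.Agent.W_7d29a1_h46

lemma Exit_wt (g : Env) (h s : ℝ) (x : ℤ) (τ : ℕ) (p : ℕ → Bool) :
    wt g (h + s) 0 x τ p = Real.exp (s * (pos p τ : ℝ)) * wt g h 0 x τ p := by
  unfold wt
  rw [← Real.exp_add]
  congr 1
  ring

/-- TASK Exit1. `wt g (h + s) = exp (s pos) wt g h` and `pos p τ < z`. -/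
lemma exit_up (g : Env) {h s : ℝ} (hs : 0 ≤ s) (τ : ℕ) (z : ℤ) :
    Av g (h + s) 0 0 τ (fun p => ind (pos p τ < z)) ≤
      Real.exp (s * z) * Z g h 0 0 τ / Z g (h + s) 0 0 τ := by
  unfold Av
  refine div_le_div_of_nonneg_right ?_ (Z_pos _ _ _ _ _).le
  rw [show Z g h 0 0 τ = ∑ p ∈ T τ, wt g h 0 0 τ p from rfl, Finset.mul_sum]
  refine Finset.sum_le_sum fun p _ => ?_
  have hw := wt_pos g h 0 0 τ p
  beta_reduce
  rw [Exit_wt]
  by_cases hz : pos p τ < z
  · rw [ind_true hz, mul_one]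
    refine mul_le_mul_of_nonneg_right (Real.exp_le_exp.2 ?_) hw.le
    exact mul_le_mul_of_nonneg_left (by exact_mod_cast hz.le) hs
  · rw [ind_false hz, mul_zero]
    positivity

/-- TASK Exit2. -/
lemma exit_dn (g : Env) {h s : ℝ} (hs : 0 ≤ s) (τ ℓ : ℕ) (z : ℤ) :
    Av g (h - s) 0 ℓ τ (fun p => ind (z < (ℓ : ℤ) + pos p τ)) ≤
      Real.exp (-(s * ((z : ℝ) - ℓ))) * Z g h 0 ℓ τ / Z g (h - s) 0 ℓ τ := by
  unfold Av
  refine div_le_div_of_nonneg_right ?_ (Z_pos _ _ _ _ _).le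
  rw [show Z g h 0 ℓ τ = ∑ p ∈ T τ, wt g h 0 ℓ τ p from rfl, Finset.mul_sum]
  refine Finset.sum_le_sum fun p _ => ?_
  have hw := wt_pos g h 0 ℓ τ p
  beta_reduce
  rw [show h - s = h + -s by ring, Exit_wt]
  by_cases hz : z < (ℓ : ℤ) + pos p τ
  · rw [ind_true hz, mul_one]
    refine mul_le_mul_of_nonneg_right (Real.exp_le_exp.2 ?_) hw.le
    have h1 : (z : ℝ) - ℓ ≤ pos p τ := by
      have : z - ℓ ≤ pos p τ := by omega
      exact_mod_cast this
    have h2 := mul_le_mul_of_nonneg_left h1 hs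
    linarith
  · rw [ind_false hz, mul_zero]
    positivity

lemma Exit_pos (k m : ℕ) :
    pos (fun i => decide (i < k)) m = 2 * (min m k : ℕ) - (m : ℤ) := by
  induction m with
  | zero => simp
  | succ m ih =>
    rw [pos_succ, ih]
    by_cases h : m < k
    · have h1 : min m k = m := by omega
      have h2 : min (m + 1) k = m + 1 := by omega
      rw [h1, h2, decide_eq_true h, stp_true]
      push_cast
      ring
    · have h1 : min m k = k := by omega
      have h2 : min (m + 1) k = k := by omega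
      rw [h1, h2, decide_eq_false h, stp_false]
      push_cast
      ring

/-- TASK Exit3. A walk with the right parity (first steps up, then steps down). -/
lemma reach_of {x y : ℤ} {n : ℕ} (hd : |y - x| ≤ n) (hp : (y - x) % 2 = (n : ℤ) % 2) :
    Reach x n y := by
  have hd' := abs_le.1 hd
  obtain ⟨k, hk⟩ : ∃ k : ℕ, (2 * k : ℤ) = n + (y - x) := by
    refine ⟨((n + (y - x)) / 2).toNat, ?_⟩
    omega
  refine ⟨fun i => decide (i < k), mem_T.2 fun i hi => decide_eq_false (by omega), ?_⟩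
  rw [Exit_pos]
  have h1 : min n k = k := by omega
  rw [h1]
  omega

/-- TASK Exit4. An integer of given parity in an interval of length `2`. -/
lemma exists_par (w : ℝ) (τ : ℕ) : ∃ z : ℤ, w ≤ z ∧ (z : ℝ) ≤ w + 2 ∧ z % 2 = (τ : ℤ) % 2 := by
  have h1 := Int.le_ceil w
  have h2 := Int.ceil_lt_add_one w
  by_cases h : ⌈w⌉ % 2 = (τ : ℤ) % 2
  · exact ⟨⌈w⌉, h1, by linarith, h⟩
  · refine ⟨⌈w⌉ + 1, ?_, ?_, by omega⟩
    · push_cast
      linarith
    · push_cast
      linarith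

/-- TASK Exit5. In the tube, `ℓ + pos p τ ≤ ℓ + τ v + r`. -/
lemma mass_up (g : Env) (h v r : ℝ) {ℓ τ n : ℕ} (hτ : τ ≤ n) {z : ℤ}
    (hz : (ℓ : ℝ) + τ * v + r ≤ z) :
    WT g h v r ℓ n / Z g h 0 ℓ n ≤ Av g h 0 ℓ n (fun p => ind ((ℓ : ℤ) + pos p τ ≤ z)) := by
  unfold Av WT
  refine div_le_div_of_nonneg_right (Finset.sum_le_sum fun p _ => ?_) (Z_pos _ _ _ _ _).le
  have hw := wt_pos g h 0 ℓ n p
  beta_reduce
  split_ifs with hp
  · have h1 := (abs_le.1 (hp τ hτ)).2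
    have h2 : (ℓ : ℤ) + pos p τ ≤ z := by
      have : (ℓ : ℝ) + pos p τ ≤ z := by linarith
      exact_mod_cast this
    rw [ind_true h2, mul_one]
  · exact mul_nonneg hw.le (ind_nonneg _)

/-- TASK Exit6. In the tube, `pos p τ ≥ τ v - r`. -/
lemma mass_dn (g : Env) (h v r : ℝ) {τ n : ℕ} (hτ : τ ≤ n) {z : ℤ} (hz : (z : ℝ) ≤ τ * v - r) :
    WT g h v r 0 n / Z g h 0 0 n ≤ Av g h 0 0 n (fun p => ind (z ≤ pos p τ)) := by
  unfold Av WT
  refine div_le_div_of_nonneg_right (Finset.sum_le_sum fun p _ => ?_) (Z_pos _ _ _ _ _).le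
  have hw := wt_pos g h 0 0 n p
  beta_reduce
  split_ifs with hp
  · have h1 := (abs_le.1 (hp τ hτ)).1
    have h2 : z ≤ pos p τ := by
      have : (z : ℝ) ≤ pos p τ := by linarith
      exact_mod_cast this
    rw [ind_true h2, mul_one]
  · exact mul_nonneg hw.le (ind_nonneg _)

end Pool.Agent.W_7d29a1_h46s
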