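import Pool.Agent.W_7d29a1_h46s.Defs
import Pool.Agent.W_7d29a1_h46.Tr
import Pool.Agent.W_7d29a1_h46u.StrU

/-!
Transfer between the models, in dimension one.
-/

namespace Pool.Agent.W_7d29a1_h46s

open MeasureTheory ProbabilityTheory Filter Topology Pool.Agent.W_MP_7d29a1_pr
  Pool.Agent.W_7d29a1_h46

variable {ρ : Measure ℝ} [IsProbabilityMeasure ρ] {β : ℝ}

/-- The canonical environment on `ℕ × ℤ^1` is an i.i.d. family. -/
lemma iid_can (d : ℕ) : IID (W_7d29a1_h46u.law d ρ) ρ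
    (fun (p : ℕ × Site d) (η : W_7d29a1_h46u.Env d) => η p) := by
  refine ⟨fun p => measurable_pi_apply p, ?_, fun p => ?_⟩
  · exact iIndepFun_infinitePi (P := fun _ : ℕ × Site d => ρ) (X := fun _ x => x)
      fun _ => measurable_id
  · exact (measurePreserving_eval_infinitePi (fun _ : ℕ × Site d => ρ) p).map_eq

/-- TASK TrS1. `ZT_univ1`. -/
lemma X_eq (h : ℝ) (η : W_7d29a1_h46u.Env 1) (n : ℕ) :
    W_7d29a1_h46u.X β (tv h) η n = Real.log (W_7d29a1_h47.Z (toE β η) h 0 0 n) := by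
  unfold W_7d29a1_h46u.X W_7d29a1_h46u.Z
  rw [ZT_univ1]

/-- The transfer of integrals. -/
lemma TrS_int {F : W_7d29a1_h47.Env → ℝ} (hF : Measurable F) :
    ∫ η, F (toE β η) ∂(W_7d29a1_h46u.law 1 ρ) =
      ∫ g, F g ∂(W_7d29a1_h47.law (ρ.map fun t => β * t)) := by
  have hmp : MeasurePreserving (fun η : W_7d29a1_h46u.Env 1 => toE β fun p => η p)
      (W_7d29a1_h46u.law 1 ρ) (W_7d29a1_h47.law (ρ.map fun t => β * t)) :=
    mp_toE (iid_can (ρ := ρ) 1) β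
  rw [← hmp.map_eq, integral_map hmp.measurable.aemeasurable hF.aestronglyMeasurable]

lemma TrS_meas (h : ℝ) (n : ℕ) :
    Measurable fun g : W_7d29a1_h47.Env => Real.log (W_7d29a1_h47.Z g h 0 0 n) :=
  (W_7d29a1_h47.measurable_Z h 0 0 n).log

/-- TASK TrS2. `mp_toE` for `iid_can 1`. -/
lemma A_eq (h : ℝ) (n : ℕ) :
    W_7d29a1_h46u.A ρ β (tv h) n = W_7d29a1_h47.a (ρ.map fun t => β * t) h n := by
  unfold W_7d29a1_h46u.A W_7d29a1_h47.a
  rw [← TrS_int (TrS_meas h n)]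
  simp only [X_eq]

lemma lam_eq (h : ℝ) :
    W_7d29a1_h46u.lam ρ β (tv h) = W_7d29a1_h47.Lam (ρ.map fun t => β * t) h := by
  unfold W_7d29a1_h46u.lam W_7d29a1_h47.Lam
  simp only [A_eq]

lemma dev_eq (h : ℝ) (n q : ℕ) :
    ∫ η, |W_7d29a1_h46u.X β (tv h) η n - W_7d29a1_h46u.A ρ β (tv h) n| ^ q
      ∂(W_7d29a1_h46u.law 1 ρ) =
    ∫ g, |Real.log (W_7d29a1_h47.Z g h 0 0 n) - W_7d29a1_h47.a (ρ.map fun t => β * t) h n| ^ q
      ∂(W_7d29a1_h47.law (ρ.map fun t => β * t)) := by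
  rw [← TrS_int (F := fun g => |Real.log (W_7d29a1_h47.Z g h 0 0 n) -
    W_7d29a1_h47.a (ρ.map fun t => β * t) h n| ^ q) ((((TrS_meas h n).sub_const _).abs).pow_const q)]
  simp only [X_eq, A_eq]

lemma TrS_dist (h h' : ℝ) : ‖tv h' - tv h‖ = |h' - h| := by
  rw [← dist_eq_norm, tv_isometry.dist_eq, Real.dist_eq]

/-- TASK TrS3. `tv` is an isometry (`tv_isometry`). -/
lemma flZ_of {h x : ℝ} (hF : W_7d29a1_h46u.Fl ρ β (tv h) x) :
    FlZ (ρ.map fun t => β * t) h x := by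
  intro q
  obtain ⟨δ, hδ, C, hC⟩ := hF q
  refine ⟨δ, hδ, C, fun h' hh' n hn => ?_⟩
  rw [← dev_eq]
  exact hC (tv h') (by rwa [TrS_dist]) n hn

/-- TASK TrS4. `rateU`. -/
lemma rtZ_of (hρ : W_7d29a1_h46u.EM ρ) {h x : ℝ} (hx : 0 ≤ x)
    (hF : W_7d29a1_h46u.Fl ρ β (tv h) x) {ε : ℝ} (hε : 0 < ε) (hxε : x + ε < 1) :
    RtZ (ρ.map fun t => β * t) h (x + ε) := by
  obtain ⟨δ, hδ, C, hC0, hC⟩ := W_7d29a1_h46u.rateU one_pos hρ hx hF hε hxε
  refine ⟨δ, hδ, C, hC0, fun h' hh' n hn => ?_⟩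
  rw [← lam_eq, ← A_eq]
  exact hC (tv h') (by rwa [TrS_dist]) n hn

/-- TASK TrS5. `mem_nuSetS`, and the equality of `PolT` of the tube with `TM` (see the proof of
`nuT_le_of_expd` in `W_7d29a1_h46/Tr.lean`). -/
lemma tbZ_of {Ω : Type*} [MeasurableSpace Ω] {μ : Measure Ω} [IsProbabilityMeasure μ]
    {ω : ℕ × Site 1 → Ω → ℝ} (hω : IID μ ρ ω) {h v e : ℝ}
    (he : e ∈ W_7d29a1_h46u.nuSetS μ β ω (tv h) (tv v)) :
    TbZ (ρ.map fun t => β * t) h v e := by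
  obtain ⟨_, hq⟩ := he
  intro q
  obtain ⟨C, hC⟩ := hq q
  refine ⟨C, fun n hn => ?_⟩
  refine le_trans (le_of_eq ?_) (hC n hn)
  have hmp := mp_toE hω β
  have hm : Measurable fun g : W_7d29a1_h47.Env => 1 - TM g h v ((n : ℝ) ^ e) n := by
    refine measurable_const.sub ?_
    unfold TM
    refine Measurable.div ?_ (W_7d29a1_h47.measurable_Z h 0 0 n)
    refine Finset.measurable_sum _ fun s _ => ?_
    split_ifs
    · exact W_7d29a1_h47.measurable_wt h 0 0 n s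
    · exact measurable_const
  rw [← hmp.map_eq, integral_map hmp.measurable.aemeasurable hm.aestronglyMeasurable]
  refine integral_congr_ae (Filter.Eventually.of_forall fun x => ?_)
  change 1 - TM (toE β fun p => ω p x) h v ((n : ℝ) ^ e) n =
    1 - PolT β (tv h) (fun p => ω p x) (tube 1 n (tv v) ((n : ℝ) ^ e))
  unfold PolT
  rw [ZT_tube1, ZT_univ1, mul_div_cancel_right₀ _ (W_7d29a1_h47.Z_pos _ _ _ _ _).ne']

/-- TASK TrS6. `chiT` is at most any exponent of the second moment: see `chiT_le_chiS` in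
`W_7d29a1_h46u/StrC.lean` and `mem_chiSetS` in `StrA.lean` (`mp_env`). -/
lemma chiT_le_of {Ω : Type*} [MeasurableSpace Ω] {μ : Measure Ω} [IsProbabilityMeasure μ]
    {ω : ℕ × Site 1 → Ω → ℝ} (hω : IID μ ρ ω) (hρ : W_7d29a1_h46u.EM ρ) {h y : ℝ} (hy : 0 ≤ y)
    (hC : ∃ C : ℝ, ∀ n : ℕ, 1 ≤ n →
      ∫ g, |Real.log (W_7d29a1_h47.Z g h 0 0 n) - W_7d29a1_h47.a (ρ.map fun t => β * t) h n| ^ 2
        ∂(W_7d29a1_h47.law (ρ.map fun t => β * t)) ≤ C * (n : ℝ) ^ (y * (2 : ℕ))) :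
    chiT μ β ω (tv h) ≤ y := by
  obtain ⟨C, hC⟩ := hC
  unfold chiT
  rcases Set.eq_empty_or_nonempty {x : ℝ | 0 < x ∧ ∀ᶠ n : ℕ in Filter.atTop,
    (n : ℝ) ^ (2 * x) ≤ Var[fun y => Real.log (Zn β (tv h) (fun p => ω p y) n); μ]} with hT | hT
  · rw [hT, Real.sSup_empty]
    exact hy
  · refine csSup_le hT ?_
    rintro z ⟨hz0, hz⟩
    by_contra hcon
    have hyz : y < z := not_le.1 hcon
    have h1 : ∀ n : ℕ, 1 ≤ n →
        Var[fun y => Real.log (Zn β (tv h) (fun p => ω p y) n); μ] ≤ C * (n : ℝ) ^ (2 * y) := by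
      intro n hn
      have h2 := hC n hn
      rw [← dev_eq, ← W_7d29a1_h46u.StrA_mom one_pos hω hρ] at h2
      rw [variance_eq_integral (VarU_measurable β (tv h) n hω).aemeasurable]
      simp only [sq_abs] at h2
      have h3 : y * ((2 : ℕ) : ℝ) = 2 * y := by
        push_cast
        ring
      rw [h3] at h2
      exact h2
    have h2 : ∀ᶠ n : ℕ in atTop, (n : ℝ) ^ (2 * (z - y)) ≤ C := by
      filter_upwards [hz, eventually_ge_atTop 1] with n hn hn1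
      have h3 := hn.trans (h1 n hn1)
      have hn0 : (0 : ℝ) < n := by exact_mod_cast hn1
      have h4 : (n : ℝ) ^ (2 * z) = (n : ℝ) ^ (2 * (z - y)) * (n : ℝ) ^ (2 * y) := by
        rw [← Real.rpow_add hn0]
        congr 1
        ring
      rw [h4] at h3
      exact le_of_mul_le_mul_right h3 (Real.rpow_pos_of_pos hn0 _)
    have h4 : Tendsto (fun n : ℕ => (n : ℝ) ^ (2 * (z - y))) atTop atTop :=
      (tendsto_rpow_atTop (by linarith)).comp tendsto_natCast_atTop_atTop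
    obtain ⟨n, hn, hn'⟩ := (h2.and (h4.eventually_gt_atTop C)).exists
    linarith

end Pool.Agent.W_7d29a1_h46s
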