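import Pool.Agent.W_7d29a1_h46s.MainS
import Pool.Agent.W_7d29a1_h46s.TrS

/-!
The inequality `χ (1 + χ*) ≤ 2 ν* χ*` at a curved tilt, in dimension one.
-/

namespace Pool.Agent.W_7d29a1_h46s

open MeasureTheory ProbabilityTheory Filter Topology Pool.Agent.W_MP_7d29a1_pr
  Pool.Agent.W_7d29a1_h46 Pool.Agent.W_7d29a1_h46u

variable {Ω : Type*} [MeasurableSpace Ω] {μ : Measure Ω} [IsProbabilityMeasure μ]
  {ρ : Measure ℝ} [IsProbabilityMeasure ρ] {ω : ℕ × Site 1 → Ω → ℝ} {β : ℝ}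

lemma chiS_nonneg {d : ℕ} (ω : ℕ × Site d → Ω → ℝ) (β : ℝ) (h : Vec d) :
    0 ≤ chiS μ β ω h := Real.sInf_nonneg fun _ hx => hx.1.le

lemma nuS_nonneg {d : ℕ} (ω : ℕ × Site d → Ω → ℝ) (β : ℝ) (h v : Vec d) :
    0 ≤ nuS μ β ω h v := Real.sInf_nonneg fun _ hx => hx.1.le

lemma chiT_nonneg {d : ℕ} (ω : ℕ × Site d → Ω → ℝ) (β : ℝ) (h : Vec d) :
    0 ≤ chiT μ β ω h := Real.sSup_nonneg fun _ hx => hx.1.le

/-- For exponents in the sets of the definitions. -/
lemma FinA_pair (hω : IID μ ρ ω) (hρ : W_7d29a1_h46u.EM ρ) {h v x e : ℝ}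
    (hC : CvL (W_7d29a1_h47.Lam (ρ.map fun t => β * t)) h v)
    (hx : x ∈ chiSetS μ β ω (tv h)) (hx1 : x < 1) (he : e ∈ nuSetS μ β ω (tv h) (tv v))
    (hex : 2 * e < 1 + x) : (1 + x) * chiT μ β ω (tv h) ≤ 2 * e * x := by
  obtain ⟨hx0, hF⟩ := (mem_chiSetS one_pos hω hρ (tv h) x).1 hx
  have he0 : 0 < e := he.1
  have hprob : IsProbabilityMeasure (ρ.map fun t => β * t) :=
    Measure.isProbabilityMeasure_map (measurable_const_mul β).aemeasurable
  have hx2 : 0 < 1 + x := by linarith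
  have hy : 0 ≤ 2 * e * x / (1 + x) := by positivity
  have h1 : chiT μ β ω (tv h) ≤ 2 * e * x / (1 + x) := by
    refine le_of_forall_pos_le_add fun ε hε => ?_
    refine chiT_le_of hω hρ (by positivity) ?_
    have h2 := main_s (EM_map hρ β) hx0 hx1 (flZ_of hF)
      (fun ε' hε' hxε' => rtZ_of hρ hx0.le hF hε' hxε') he0 hex (tbZ_of hω he) hC hε 2
    exact h2
  rw [le_div_iff₀ hx2] at h1
  linarith

/-- TASK FinA. At a curved tilt. For `x ∈ chiSetS` (so `0 < x`, `Fl`), `x < 1`, and `e ∈ nuSetS` with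
`2 e < 1 + x`: `main_s` with `q = 2`, `flZ_of`, `rtZ_of`, `tbZ_of`, `chiT_le_of` give
`chiT ≤ 2 e x / (1 + x) + ε` for all `ε > 0`. If `2 nuS < 1 + chiS`, let `e ↓ nuS`, `x ↓ chiS`.
If `2 nuS ≥ 1 + chiS` use `chiT_le_chiS`. -/
theorem curved (hω : IID μ ρ ω) (hρ : W_7d29a1_h46u.EM ρ) {h v : ℝ}
    (hC : CvL (W_7d29a1_h47.Lam (ρ.map fun t => β * t)) h v) :
    (1 + chiS μ β ω (tv h)) * chiT μ β ω (tv h) ≤
      2 * nuS μ β ω (tv h) (tv v) * chiS μ β ω (tv h) := by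
  have hc0 := chiS_nonneg (μ := μ) ω β (tv h)
  have hN0 := nuS_nonneg (μ := μ) ω β (tv h) (tv v)
  have hT0 := chiT_nonneg (μ := μ) ω β (tv h)
  have hTc := chiT_le_chiS (β := β) one_pos hω hρ (tv h)
  have hc2 := chiS_le_half (β := β) one_pos hω hρ (tv h)
  have hneX : (chiSetS μ β ω (tv h)).Nonempty :=
    ⟨1 / 2, (mem_chiSetS one_pos hω hρ _ _).2 ⟨by norm_num, Fl_half one_pos hρ β _⟩⟩
  have hneE : (nuSetS μ β ω (tv h) (tv v)).Nonempty := ⟨2, StrB_two_mem one_pos ω β (tv h) (tv v)⟩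
  set c : ℝ := chiS μ β ω (tv h) with hc
  set N : ℝ := nuS μ β ω (tv h) (tv v) with hN
  set X : ℝ := chiT μ β ω (tv h) with hX
  rcases le_or_gt (1 + c) (2 * N) with h1 | h1
  · calc (1 + c) * X ≤ (1 + c) * c := mul_le_mul_of_nonneg_left hTc (by linarith)
      _ ≤ 2 * N * c := mul_le_mul_of_nonneg_right h1 hc0
  · refine le_of_forall_pos_le_add fun ε hε => ?_
    set η : ℝ := min (min 1 (ε / (2 * (N + c + 1)))) (min ((1 + c - 2 * N) / 2) (1 / 4)) with hη
    have hS : 0 < N + c + 1 := by linarith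
    have hη0 : 0 < η := lt_min (lt_min one_pos (by positivity)) (lt_min (by linarith) (by norm_num))
    have hη1 : η ≤ 1 := (min_le_left _ _).trans (min_le_left _ _)
    have hη2 : η ≤ ε / (2 * (N + c + 1)) := (min_le_left _ _).trans (min_le_right _ _)
    have hη3 : η ≤ (1 + c - 2 * N) / 2 := (min_le_right _ _).trans (min_le_left _ _)
    have hη4 : η ≤ 1 / 4 := (min_le_right _ _).trans (min_le_right _ _)
    obtain ⟨x, hx, hxlt⟩ := exists_lt_of_csInf_lt hneX (show sInf (chiSetS μ β ω (tv h)) < c + η by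
      change c < c + η
      linarith)
    obtain ⟨e, he, helt⟩ := exists_lt_of_csInf_lt hneE
      (show sInf (nuSetS μ β ω (tv h) (tv v)) < N + η by
        change N < N + η
        linarith)
    have hcx : c ≤ x := csInf_le ⟨0, fun y hy => hy.1.le⟩ hx
    have hNe : N ≤ e := csInf_le ⟨0, fun y hy => hy.1.le⟩ he
    have h2 := FinA_pair hω hρ hC hx (by linarith) he (by linarith)
    have hx0 : 0 < x := hx.1
    have he0 : 0 < e := he.1
    have h3 : (1 + c) * X ≤ (1 + x) * X := mul_le_mul_of_nonneg_right (by linarith) hT0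
    have h4 : e * x ≤ (N + η) * (c + η) :=
      mul_le_mul helt.le hxlt.le hx0.le (by linarith)
    have h5 : (N + η) * (c + η) ≤ N * c + η * (N + c + 1) := by nlinarith
    have h6 : 2 * (η * (N + c + 1)) ≤ ε := by
      have := mul_le_mul_of_nonneg_right hη2 hS.le
      rw [div_mul_eq_mul_div, le_div_iff₀ (by positivity)] at this
      have h7 : η * (N + c + 1) * (2 * (N + c + 1)) ≤ ε * (N + c + 1) := this
      have h8 : (2 * (η * (N + c + 1))) * (N + c + 1) ≤ ε * (N + c + 1) := by linarith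
      exact le_of_mul_le_mul_right h8 hS
    calc (1 + c) * X ≤ (1 + x) * X := h3
      _ ≤ 2 * e * x := h2
      _ = 2 * (e * x) := by ring
      _ ≤ 2 * N * c + ε := by linarith

end Pool.Agent.W_7d29a1_h46s
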