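import Pool.Agent.W_7d29a1_h46s.Det
import Pool.Agent.W_7d29a1_h46s.Exit

/-!
The difference of the free energies of two starting points on the good event.
-/

namespace Pool.Agent.W_7d29a1_h46s

open MeasureTheory ProbabilityTheory Filter Topology Pool.Agent.W_7d29a1_h47
  Pool.Agent.W_7d29a1_h46

variable {μ : Measure ℝ} [IsProbabilityMeasure μ]

/-- TASK GoodS. Upper bound: let `z` be the integer of the parity of `τ` in
`[ℓ + τ v + r, ℓ + τ v + r + 2]` (`exists_par`); by `hroom` it is reachable from `0` and from `ℓ` in `τ`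
steps (`reach_of`; `ℓ` even). `hp1` of `det_up` by `mass_up` and `m1`. `hp2`: the complementary mass is
(`exit_up`) at most `exp (s z + log Z_τ(h) - log Z_τ(h + s)) ≤ exp (s (ℓ + τ v + r + 2) + a_τ(h) + u -
a_τ(h + s) + u) ≤ exp (s (ℓ + r + 2) + s τ v + τ Λ(h) + 2 u - τ Λ(h + s) + R) ≤ exp (s (ℓ + r + 2) + 2 u + R -
c s² τ) ≤ exp (-1) ≤ 1/2` (`a_le_Lam`, `hR1`, `hc1`, `hK`). Then the bracket of `det_up` is at most `2 u`.
Lower bound: the same with `z` in `[τ v - r - 2, τ v - r]`, `det_dn`, `mass_dn`, `exit_dn`. -/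
theorem gs_main (hμ : EM μ) {h s u v r c R : ℝ} {ℓ τ n : ℕ} (hs : 0 ≤ s) (hr : 0 ≤ r) (hτ : τ ≤ n)
    (hℓ : 0 < ℓ) (hℓ2 : ℓ % 2 = 0) (hroom : (ℓ : ℝ) + r + 3 ≤ (1 - |v|) * τ)
    (hc1 : Lam μ h + v * s + c * s ^ 2 ≤ Lam μ (h + s))
    (hc2 : Lam μ h - v * s + c * s ^ 2 ≤ Lam μ (h - s))
    (hR1 : τ * Lam μ (h + s) - a μ (h + s) τ ≤ R) (hR2 : τ * Lam μ (h - s) - a μ (h - s) τ ≤ R)
    (hK : s * (ℓ + r + 3) + 2 * u + R + 1 ≤ c * s ^ 2 * τ) {g : Env}
    (hg : GS μ h s u v r ℓ τ n g) :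
    |Real.log (Z g h 0 0 n) - Real.log (Z g h 0 ℓ n)| ≤ s * ℓ + 2 * u + 2 * Real.log 2 := by
  have hsc : (0 : ℝ) ≤ ℓ := Nat.cast_nonneg ℓ
  have hτ0 : (0 : ℝ) ≤ τ := Nat.cast_nonneg τ
  have hv1 : v * τ ≤ |v| * τ := mul_le_mul_of_nonneg_right (le_abs_self v) hτ0
  have hv2 : -(|v| * τ) ≤ v * τ := by
    have := mul_le_mul_of_nonneg_right (neg_abs_le v) hτ0
    linarith
  have hexp : Real.exp (-1) ≤ 1 / 2 := by
    rw [Real.exp_neg, inv_eq_one_div]
    exact one_div_le_one_div_of_le (by norm_num) (by linarith [Real.exp_one_gt_d9])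
  have hL1 : τ * Lam μ h + τ * (v * s) + τ * (c * s ^ 2) ≤ τ * Lam μ (h + s) := by
    have := mul_le_mul_of_nonneg_left hc1 hτ0
    linarith
  have hL2 : τ * Lam μ h - τ * (v * s) + τ * (c * s ^ 2) ≤ τ * Lam μ (h - s) := by
    have := mul_le_mul_of_nonneg_left hc2 hτ0
    linarith
  have ha := a_le_Lam hμ h τ
  have hb00 := abs_le.1 (hg.b0 0 (Or.inl rfl))
  have hb0l := abs_le.1 (hg.b0 ℓ (Or.inr rfl))
  have hb10 := abs_le.1 (hg.b1 0 (Or.inl rfl))
  have hb1l := abs_le.1 (hg.b1 ℓ (Or.inr rfl))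
  have hb20 := abs_le.1 (hg.b2 0 (Or.inl rfl))
  have hb2l := abs_le.1 (hg.b2 ℓ (Or.inr rfl))
  have up : Real.log (Z g h 0 ℓ n) ≤ Real.log (Z g h 0 0 n) + s * ℓ + 2 * u + 2 * Real.log 2 := by
    obtain ⟨z, hz1, hz2, hz3⟩ := exists_par ((ℓ : ℝ) + τ * v + r) τ
    have r0 : Reach 0 τ z := by
      refine reach_of ?_ (by simpa using hz3)
      rw [sub_zero, abs_le]
      constructor
      · have : (-(τ : ℝ)) ≤ z := by linarith
        exact_mod_cast this
      · have : (z : ℝ) ≤ τ := by linarith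
        exact_mod_cast this
    have r1 : Reach ℓ τ z := by
      refine reach_of ?_ (by omega)
      rw [abs_le]
      constructor
      · have : (-(τ : ℝ)) ≤ z - ℓ := by linarith
        exact_mod_cast this
      · have : (z : ℝ) - ℓ ≤ τ := by linarith
        exact_mod_cast this
    have hp1 := hg.m1.trans (mass_up g h v r hτ hz1)
    have hp2 : 1 / 2 ≤ Av g (h + s) 0 0 τ (fun p => ind (z ≤ pos p τ)) := by
      have e1 := exit_up g (h := h) hs τ z
      have e2 : Real.exp (s * z) * Z g h 0 0 τ / Z g (h + s) 0 0 τ =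
          Real.exp (s * z + Real.log (Z g h 0 0 τ) - Real.log (Z g (h + s) 0 0 τ)) := by
        rw [Real.exp_sub, Real.exp_add, Real.exp_log (Z_pos _ _ _ _ _),
          Real.exp_log (Z_pos _ _ _ _ _)]
      have e3 : s * z + Real.log (Z g h 0 0 τ) - Real.log (Z g (h + s) 0 0 τ) ≤ -1 := by
        have := mul_le_mul_of_nonneg_left hz2 hs
        linarith
      have e4 : Av g (h + s) 0 0 τ (fun p => ind (z ≤ pos p τ)) =
          1 - Av g (h + s) 0 0 τ (fun p => ind (pos p τ < z)) := by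
        rw [← Av_const (g := g) (h := h + s) (t := 0) (x := 0) (n := τ) 1, ← Av_sub]
        refine Av_congr fun p _ => ?_
        rw [← ind_not]
        exact ind_congr not_lt.symm
      rw [e4]
      have e5 := (e1.trans (e2.trans_le (Real.exp_le_exp.2 e3))).trans hexp
      linarith
    have hd := det_up g hτ hℓ hℓ2 r0 r1 hp1 hp2
    linarith [hb10.1, hb10.2, hb1l.1, hb1l.2]
  have dn : Real.log (Z g h 0 0 n) ≤ Real.log (Z g h 0 ℓ n) + s * ℓ + 2 * u + 2 * Real.log 2 := by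
    obtain ⟨z, hz1, hz2, hz3⟩ := exists_par (τ * v - r - 2) τ
    have hz2' : (z : ℝ) ≤ τ * v - r := by linarith
    have r0 : Reach 0 τ z := by
      refine reach_of ?_ (by simpa using hz3)
      rw [sub_zero, abs_le]
      constructor
      · have : (-(τ : ℝ)) ≤ z := by linarith
        exact_mod_cast this
      · have : (z : ℝ) ≤ τ := by linarith
        exact_mod_cast this
    have r1 : Reach ℓ τ z := by
      refine reach_of ?_ (by omega)
      rw [abs_le]
      constructor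
      · have : (-(τ : ℝ)) ≤ z - ℓ := by linarith
        exact_mod_cast this
      · have : (z : ℝ) - ℓ ≤ τ := by linarith
        exact_mod_cast this
    have hp1 := hg.m0.trans (mass_dn g h v r hτ hz2')
    have hp2 : 1 / 2 ≤ Av g (h - s) 0 ℓ τ (fun p => ind ((ℓ : ℤ) + pos p τ ≤ z)) := by
      have e1 := exit_dn g (h := h) hs τ ℓ z
      have e2 : Real.exp (-(s * ((z : ℝ) - ℓ))) * Z g h 0 ℓ τ / Z g (h - s) 0 ℓ τ =
          Real.exp (-(s * ((z : ℝ) - ℓ)) + Real.log (Z g h 0 ℓ τ) -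
            Real.log (Z g (h - s) 0 ℓ τ)) := by
        rw [Real.exp_sub, Real.exp_add, Real.exp_log (Z_pos _ _ _ _ _),
          Real.exp_log (Z_pos _ _ _ _ _)]
      have e3 : -(s * ((z : ℝ) - ℓ)) + Real.log (Z g h 0 ℓ τ) -
          Real.log (Z g (h - s) 0 ℓ τ) ≤ -1 := by
        have := mul_le_mul_of_nonneg_left hz1 hs
        linarith
      have e4 : Av g (h - s) 0 ℓ τ (fun p => ind ((ℓ : ℤ) + pos p τ ≤ z)) =
          1 - Av g (h - s) 0 ℓ τ (fun p => ind (z < (ℓ : ℤ) + pos p τ)) := by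
        rw [← Av_const (g := g) (h := h - s) (t := 0) (x := ℓ) (n := τ) 1, ← Av_sub]
        refine Av_congr fun p _ => ?_
        rw [← ind_not]
        exact ind_congr not_lt.symm
      rw [e4]
      have e5 := (e1.trans (e2.trans_le (Real.exp_le_exp.2 e3))).trans hexp
      linarith
    have hd := det_dn g hτ hℓ hℓ2 r0 r1 hp1 hp2
    linarith [hb20.1, hb20.2, hb2l.1, hb2l.2]
  rw [abs_le]
  constructor <;> linarith

end Pool.Agent.W_7d29a1_h46s
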