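import Mathlib

/-!
Choice of the parameters.
-/

namespace Pool.Agent.W_7d29a1_h46s

open Filter Topology

theorem ParS_big {a : ℝ} (ha : 0 < a) (C : ℝ) : ∀ᶠ n : ℕ in atTop, C ≤ (n : ℝ) ^ a :=
  ((tendsto_rpow_atTop ha).comp tendsto_natCast_atTop_atTop).eventually_ge_atTop C

theorem ParS_small {a : ℝ} (ha : a < 0) {C : ℝ} (hC : 0 < C) :
    ∀ᶠ n : ℕ in atTop, (n : ℝ) ^ a < C := by
  have h := (tendsto_rpow_neg_atTop (y := -a) (by linarith)).comp tendsto_natCast_atTop_atTop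
  have h2 := h.eventually (gt_mem_nhds hC)
  filter_upwards [h2] with n hn
  simpa using hn

theorem ParS_main {c CR K A B N E Y k τ T : ℝ} (hc : 0 ≤ c) (hCR : 0 ≤ CR) (hK0 : 0 ≤ K)
    (hA0 : 0 ≤ A) (hB0 : 0 ≤ B) (hE : 1 ≤ E) (hY : 1 ≤ Y) (eA : A * N = E)
    (eB : B ^ 2 * N = Y) (hk : k ≤ E + 1) (hcK1 : 10 ≤ c / 2 * K)
    (hcK2 : 2 * (2 + CR) + 1 ≤ c / 2 * K ^ 2) (hT : T ≤ 2 * Y) (hN : N ≤ τ) :
    K * (A + B) * (2 * k + 2 + E + 3) + 2 * T + CR * T + 1 ≤ c * (K * (A + B)) ^ 2 * τ := by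
  have hN0 : 0 ≤ N := by
    rcases hB0.eq_or_lt with h | h
    · rw [← h] at eB; norm_num at eB; linarith
    · by_contra hN'
      have : B ^ 2 * N < 0 := mul_neg_of_pos_of_neg (by positivity) (by linarith)
      linarith
  have g1 : K * (A + B) * (2 * k + 2 + E + 3) ≤ K * (A + B) * (10 * E) := by
    refine mul_le_mul_of_nonneg_left ?_ (by positivity)
    linarith
  have g2 : K * (A + B) * (10 * E) ≤ c / 2 * (K * (A + B)) ^ 2 * N := by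
    have h5 : 10 * E ≤ c / 2 * (K * (A + B)) * N := by
      have h6 : 10 * E ≤ c / 2 * K * E := mul_le_mul_of_nonneg_right hcK1 (by linarith)
      have h7 : 0 ≤ c / 2 * (K * B) * N := by positivity
      have h8 : c / 2 * K * E = c / 2 * (K * A) * N := by rw [← eA]; ring
      have h9 : c / 2 * (K * (A + B)) * N = c / 2 * (K * A) * N + c / 2 * (K * B) * N := by ring
      linarith
    have h6 := mul_le_mul_of_nonneg_left h5 (show 0 ≤ K * (A + B) by positivity)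
    have h7 : K * (A + B) * (c / 2 * (K * (A + B)) * N) = c / 2 * (K * (A + B)) ^ 2 * N := by ring
    linarith
  have g3 : 2 * T + CR * T + 1 ≤ c / 2 * (K * (A + B)) ^ 2 * N := by
    have h5 : 2 * T + CR * T + 1 ≤ (2 * (2 + CR) + 1) * Y := by
      have h6 : (2 + CR) * T ≤ (2 + CR) * (2 * Y) := mul_le_mul_of_nonneg_left hT (by linarith)
      linarith
    have h6 : (2 * (2 + CR) + 1) * Y ≤ c / 2 * K ^ 2 * Y :=
      mul_le_mul_of_nonneg_right hcK2 (by linarith)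
    have h7 : c / 2 * K ^ 2 * Y = c / 2 * (K * B) ^ 2 * N := by rw [← eB]; ring
    have h8 : c / 2 * (K * B) ^ 2 * N ≤ c / 2 * (K * (A + B)) ^ 2 * N := by
      have h9 : (K * B) ^ 2 ≤ (K * (A + B)) ^ 2 := by
        refine pow_le_pow_left₀ (by positivity) ?_ 2
        refine mul_le_mul_of_nonneg_left ?_ hK0
        linarith
      refine mul_le_mul_of_nonneg_right ?_ hN0
      exact mul_le_mul_of_nonneg_left h9 (by positivity)
    linarith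
  have g4 : c / 2 * (K * (A + B)) ^ 2 * N ≤ c / 2 * (K * (A + B)) ^ 2 * τ :=
    mul_le_mul_of_nonneg_left hN (by positivity)
  linarith

theorem ParS_last {K A B E Y k T : ℝ} (hK0 : 0 ≤ K)
    (hA0 : 0 ≤ A) (hB0 : 0 ≤ B) (hE : 1 ≤ E) (hY : 1 ≤ Y) (eC : A * E ≤ Y)
    (eD : B * E ≤ Y) (hk : k ≤ E + 1) (hT : T ≤ 2 * Y) :
    K * (A + B) * (2 * k + 2) + 2 * T + 2 * Real.log 2 ≤ (12 * K + 6) * Y := by
  have hlog : Real.log 2 ≤ 1 := by
    have := Real.log_two_lt_d9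
    linarith
  have g1 : K * (A + B) * (2 * k + 2) ≤ K * (A + B) * (6 * E) := by
    refine mul_le_mul_of_nonneg_left ?_ (by positivity)
    linarith
  have g2 : K * (A + B) * (6 * E) ≤ 12 * K * Y := by
    have h5 : K * (A * E + B * E) ≤ K * (Y + Y) := mul_le_mul_of_nonneg_left (by linarith) hK0
    have h6 : K * (A + B) * (6 * E) = 6 * (K * (A * E + B * E)) := by ring
    linarith
  linarith

/-- TASK ParS. With `b = 2 e / (1 + x) < 1`, `τ = ⌈n ^ b⌉₊`, `ℓ = 2 ⌈n ^ e⌉₊ + 2`,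
`s = K (n ^ (e - b) + n ^ (b (x - 1 + ε) / 2))` for a large constant `K`.
`τ ≤ n` for large `n` since `b < 1`; `s → 0` since `e < b` (`x < 1`) and `x + ε < 1`; `ℓ + r + 3 ≤ 10 n ^ e` and
`n ^ b ≤ τ ≤ 2 n ^ b`, so the room condition holds for large `n` (`e < b`); `(c/2) s² τ ≥ (c K / 2) s n ^ e ≥
10 s n ^ e` if `K ≥ 20 / c`; `(c/2) s² τ ≥ (c K² / 2) n ^ (b (x + ε)) ≥ (2 + CR) τ ^ (x + ε) + 1` for `K` large
(`τ ^ (x+ε) ≤ 2 n ^ (b (x + ε))`). Finally `s ℓ ≤ 4 K (n ^ (2 e - b) + n ^ (e + b (x - 1 + ε) / 2))` with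
`2 e - b = b x` and `e + b (x - 1 + ε) / 2 = b (x + ε / 2)` as `e = b (1 + x) / 2`. -/
theorem par {x e c CR ε v δ : ℝ} (hx0 : 0 < x) (hx1 : x < 1) (he0 : 0 < e) (he : 2 * e < 1 + x)
    (hc : 0 < c) (hCR : 0 ≤ CR) (hε : 0 < ε) (hxε : x + ε < 1) (hv : |v| < 1) (hδ : 0 < δ) :
    ∃ D : ℝ, 0 ≤ D ∧ ∀ᶠ n : ℕ in atTop, ∃ (τ ℓ : ℕ) (s : ℝ),
      (n : ℝ) ^ (2 * e / (1 + x)) ≤ τ ∧ τ ≤ n ∧ 0 ≤ s ∧ s < δ ∧ 0 < ℓ ∧ ℓ % 2 = 0 ∧
      2 * (n : ℝ) ^ e < ℓ ∧ (ℓ : ℝ) + (n : ℝ) ^ e + 3 ≤ (1 - |v|) * τ ∧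
      s * (ℓ + (n : ℝ) ^ e + 3) + 2 * (τ : ℝ) ^ (x + ε) + CR * (τ : ℝ) ^ (x + ε) + 1 ≤
        c * s ^ 2 * τ ∧
      s * ℓ + 2 * (τ : ℝ) ^ (x + ε) + 2 * Real.log 2 ≤
        D * (n : ℝ) ^ (2 * e / (1 + x) * (x + ε)) := by
  set b : ℝ := 2 * e / (1 + x) with hb
  set y : ℝ := x + ε with hy
  have hx1' : 0 < 1 + x := by linarith
  have hbx : b * (1 + x) = 2 * e := by rw [hb]; field_simp
  have hb0 : 0 < b := by rw [hb]; positivity
  have hb1 : b < 1 := by rw [hb, div_lt_one hx1']; exact he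
  have heb : e < b := by nlinarith
  have hy0 : 0 < y := by linarith
  have hv0 : 0 < 1 - |v| := by linarith
  set K : ℝ := 20 / c + 2 * (2 * (2 + CR) + 1) / c + 1 with hK
  have hK1 : 1 ≤ K := by
    have h1 : 0 ≤ 20 / c := by positivity
    have h2 : 0 ≤ 2 * (2 * (2 + CR) + 1) / c := by positivity
    linarith
  have hK0 : 0 < K := by linarith
  have hcK1 : 10 ≤ c / 2 * K := by
    have h1 : 20 / c ≤ K := by
      have h2 : 0 ≤ 2 * (2 * (2 + CR) + 1) / c := by positivity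
      linarith
    rw [div_le_iff₀ hc] at h1
    linarith
  have hcK2 : 2 * (2 + CR) + 1 ≤ c / 2 * K ^ 2 := by
    have h1 : 2 * (2 * (2 + CR) + 1) / c ≤ K := by
      have h2 : 0 ≤ 20 / c := by positivity
      linarith
    rw [div_le_iff₀ hc] at h1
    have h2 : c / 2 * K ≤ c / 2 * K ^ 2 := by
      have : K ≤ K ^ 2 := by nlinarith
      gcongr
    linarith
  refine ⟨12 * K + 6, by positivity, ?_⟩
  have ev1 := ParS_big (a := 1 - b) (by linarith) 2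
  have ev2 := ParS_big (a := b - e) (by linarith) (10 / (1 - |v|))
  have ev3 := ParS_small (a := e - b) (by linarith) (C := δ / (2 * K)) (by positivity)
  have ev4 := ParS_small (a := b * (y - 1) / 2) (by nlinarith) (C := δ / (2 * K)) (by positivity)
  filter_upwards [ev1, ev2, ev3, ev4, eventually_ge_atTop 1] with n h1 h2 h3 h4 hn
  have hn1 : (1 : ℝ) ≤ n := by exact_mod_cast hn
  have hn0 : (0 : ℝ) < n := by linarith
  have hnb1 : (1 : ℝ) ≤ (n : ℝ) ^ b := Real.one_le_rpow hn1 hb0.le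
  have hne1 : (1 : ℝ) ≤ (n : ℝ) ^ e := Real.one_le_rpow hn1 he0.le
  have hnby1 : (1 : ℝ) ≤ (n : ℝ) ^ (b * y) := Real.one_le_rpow hn1 (by positivity)
  have hτl : (n : ℝ) ^ b ≤ ⌈(n : ℝ) ^ b⌉₊ := Nat.le_ceil _
  have hτu : (⌈(n : ℝ) ^ b⌉₊ : ℝ) < (n : ℝ) ^ b + 1 := Nat.ceil_lt_add_one (by positivity)
  have hℓl : (n : ℝ) ^ e ≤ ⌈(n : ℝ) ^ e⌉₊ := Nat.le_ceil _
  have hℓu : (⌈(n : ℝ) ^ e⌉₊ : ℝ) < (n : ℝ) ^ e + 1 := Nat.ceil_lt_add_one (by positivity)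
  have hA0 : 0 < (n : ℝ) ^ (e - b) := by positivity
  have hB0 : 0 < (n : ℝ) ^ (b * (y - 1) / 2) := by positivity
  have eA : (n : ℝ) ^ (e - b) * (n : ℝ) ^ b = (n : ℝ) ^ e := by
    rw [← Real.rpow_add hn0]; congr 1; ring
  have eB : ((n : ℝ) ^ (b * (y - 1) / 2)) ^ 2 * (n : ℝ) ^ b = (n : ℝ) ^ (b * y) := by
    rw [← Real.rpow_natCast, ← Real.rpow_mul hn0.le, ← Real.rpow_add hn0]
    congr 1
    push_cast
    ring
  have eC : (n : ℝ) ^ (e - b) * (n : ℝ) ^ e ≤ (n : ℝ) ^ (b * y) := by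
    rw [← Real.rpow_add hn0]
    refine Real.rpow_le_rpow_of_exponent_le hn1 ?_
    nlinarith
  have eD : (n : ℝ) ^ (b * (y - 1) / 2) * (n : ℝ) ^ e ≤ (n : ℝ) ^ (b * y) := by
    rw [← Real.rpow_add hn0]
    refine Real.rpow_le_rpow_of_exponent_le hn1 ?_
    nlinarith
  set A : ℝ := (n : ℝ) ^ (e - b) with hA
  set B : ℝ := (n : ℝ) ^ (b * (y - 1) / 2) with hB
  set τ : ℕ := ⌈(n : ℝ) ^ b⌉₊ with hτ
  set k : ℕ := ⌈(n : ℝ) ^ e⌉₊ with hk
  -- powers of `τ`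
  have hτ2 : (τ : ℝ) ≤ 2 * (n : ℝ) ^ b := by linarith
  have hτy : (τ : ℝ) ^ y ≤ 2 * (n : ℝ) ^ (b * y) := by
    calc (τ : ℝ) ^ y ≤ (2 * (n : ℝ) ^ b) ^ y :=
          Real.rpow_le_rpow (Nat.cast_nonneg _) hτ2 hy0.le
      _ = (2 : ℝ) ^ y * (n : ℝ) ^ (b * y) := by
          rw [Real.mul_rpow (by norm_num) (by positivity), ← Real.rpow_mul hn0.le]
      _ ≤ (2 : ℝ) ^ (1 : ℝ) * (n : ℝ) ^ (b * y) := by
          gcongr
          · norm_num
      _ = _ := by norm_num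
  have hτy0 : 0 ≤ (τ : ℝ) ^ y := by positivity
  have hs0 : 0 ≤ K * (A + B) := by positivity
  refine ⟨τ, 2 * k + 2, K * (A + B), hτl, ?_, hs0, ?_, by omega, by omega, ?_, ?_, ?_, ?_⟩
  · -- `τ ≤ n`
    have h5 : (n : ℝ) ^ (1 - b) * (n : ℝ) ^ b = n := by
      rw [← Real.rpow_add hn0]; simp
    have h6 : 2 * (n : ℝ) ^ b ≤ n := by
      calc 2 * (n : ℝ) ^ b ≤ (n : ℝ) ^ (1 - b) * (n : ℝ) ^ b := by gcongr
        _ = n := h5
    have : (τ : ℝ) ≤ n := hτ2.trans h6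
    exact_mod_cast this
  · have h5 : K * A < δ / 2 := by
      have := mul_lt_mul_of_pos_left h3 hK0
      have e1 : K * (δ / (2 * K)) = δ / 2 := by field_simp
      linarith
    have h6 : K * B < δ / 2 := by
      have := mul_lt_mul_of_pos_left h4 hK0
      have e1 : K * (δ / (2 * K)) = δ / 2 := by field_simp
      linarith
    linarith
  · push_cast
    linarith
  · push_cast
    have h5 : 10 * (n : ℝ) ^ e ≤ (1 - |v|) * (n : ℝ) ^ b := by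
      have h6 : (n : ℝ) ^ (b - e) * (n : ℝ) ^ e = (n : ℝ) ^ b := by
        rw [← Real.rpow_add hn0]; congr 1; ring
      have h7 : 10 ≤ (1 - |v|) * (n : ℝ) ^ (b - e) := by
        rw [div_le_iff₀ hv0] at h2
        linarith
      calc 10 * (n : ℝ) ^ e ≤ (1 - |v|) * (n : ℝ) ^ (b - e) * (n : ℝ) ^ e := by gcongr
        _ = _ := by rw [mul_assoc, h6]
    have h8 : (1 - |v|) * (n : ℝ) ^ b ≤ (1 - |v|) * τ := by gcongr
    linarith
  · push_cast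
    exact ParS_main hc.le hCR hK0.le hA0.le hB0.le hne1 hnby1 eA eB hℓu.le hcK1 hcK2 hτy hτl
  · push_cast
    exact ParS_last hK0.le hA0.le hB0.le hne1 hnby1 eC eD hℓu.le hτy

end Pool.Agent.W_7d29a1_h46s
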