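import Pool.Agent.W_7d29a1_h46s.Defs

/-!
The probability of the good event.
-/

namespace Pool.Agent.W_7d29a1_h46s

open MeasureTheory ProbabilityTheory Filter Topology Pool.Agent.W_7d29a1_h47
  Pool.Agent.W_7d29a1_h46

variable {μ : Measure ℝ} [IsProbabilityMeasure μ]

/-- The central moments are integrable. `EMom_logZ`. -/
lemma int_dev (hμ : EM μ) (h : ℝ) (n q : ℕ) :
    Integrable (fun g : Env => |Real.log (Z g h 0 0 n) - a μ h n| ^ q) (law μ) :=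
  ((EMom_logZ hμ h 0 0 n).sub (EMom.const (a μ h n))).pmom.2 q

/-- TASK ProbS1. Markov for the power `Q` with `ε Q ≥ q` (see `tailU` in
`W_7d29a1_h46u/TailU.lean`: the same proof); the starting point does not matter
(`Z_shiftEnv`, `mp_shiftEnv`). -/
lemma tailZ (hμ : EM μ) {h x : ℝ} (hx : 0 ≤ x) (hF : FlZ μ h x) {ε : ℝ} (hε : 0 < ε) (q : ℕ) :
    ∃ δ > 0, ∃ C : ℝ, 0 ≤ C ∧ ∀ h' : ℝ, |h' - h| < δ → ∀ (n : ℕ), 1 ≤ n → ∀ y : ℤ,
      (law μ).real {g | (n : ℝ) ^ (x + ε) < |Real.log (Z g h' 0 y n) - a μ h' n|} ≤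
        C * (n : ℝ) ^ (-(q : ℝ)) := by
  obtain ⟨Q, hQ⟩ := exists_nat_ge ((q : ℝ) / ε)
  have hQ' : (q : ℝ) ≤ ε * Q := by
    rw [div_le_iff₀ hε] at hQ
    linarith
  obtain ⟨δ, hδ, C₀, hC₀⟩ := hF Q
  refine ⟨δ, hδ, |C₀|, abs_nonneg _, fun h' hh' n hn y => ?_⟩
  have hn1 : (1 : ℝ) ≤ n := by exact_mod_cast hn
  have hn0 : (0 : ℝ) < n := by linarith
  have hu0 : 0 < (n : ℝ) ^ (x + ε) := Real.rpow_pos_of_pos hn0 _
  have hint := int_dev hμ h' n Q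
  have hmean := hC₀ h' hh' n hn
  have hmeasY : Measurable fun g : Env => |Real.log (Z g h' 0 0 n) - a μ h' n| := by
    fun_prop
  have hset : MeasurableSet {g : Env | (n : ℝ) ^ (x + ε) < |Real.log (Z g h' 0 0 n) - a μ h' n|} :=
    measurableSet_lt measurable_const hmeasY
  have hshift : (law μ).real {g | (n : ℝ) ^ (x + ε) < |Real.log (Z g h' 0 y n) - a μ h' n|} =
      (law μ).real {g | (n : ℝ) ^ (x + ε) < |Real.log (Z g h' 0 0 n) - a μ h' n|} := by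
    rw [measureReal_def, measureReal_def, ← (mp_shiftEnv (μ := μ) 0 y).measure_preimage
      hset.nullMeasurableSet]
    congr 2
    ext g
    simp only [Set.mem_preimage, Set.mem_setOf_eq, Z_shiftEnv, zero_add]
  rw [hshift]
  have hmk := mul_meas_ge_le_integral_of_nonneg (μ := law μ)
    (f := fun g => |Real.log (Z g h' 0 0 n) - a μ h' n| ^ Q)
    (Filter.Eventually.of_forall fun g => pow_nonneg (abs_nonneg _) Q) hint
    (((n : ℝ) ^ (x + ε)) ^ Q)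
  have hsub : (law μ).real {g | (n : ℝ) ^ (x + ε) < |Real.log (Z g h' 0 0 n) - a μ h' n|} ≤
      (law μ).real {g | ((n : ℝ) ^ (x + ε)) ^ Q ≤ |Real.log (Z g h' 0 0 n) - a μ h' n| ^ Q} := by
    refine measureReal_mono fun g hg => ?_
    have hg' : (n : ℝ) ^ (x + ε) < |Real.log (Z g h' 0 0 n) - a μ h' n| := hg
    exact pow_le_pow_left₀ hu0.le hg'.le Q
  have hpow : ((n : ℝ) ^ (x + ε)) ^ Q = (n : ℝ) ^ ((x + ε) * Q) := by
    rw [Real.rpow_mul hn0.le, Real.rpow_natCast]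
  have h5 : C₀ * (n : ℝ) ^ (x * Q) ≤ |C₀| * (n : ℝ) ^ (x * Q) :=
    mul_le_mul_of_nonneg_right (le_abs_self _) (Real.rpow_nonneg hn0.le _)
  have h6 : ((n : ℝ) ^ (x + ε)) ^ Q *
      (law μ).real {g | (n : ℝ) ^ (x + ε) < |Real.log (Z g h' 0 0 n) - a μ h' n|} ≤
      |C₀| * (n : ℝ) ^ (x * Q) :=
    (mul_le_mul_of_nonneg_left hsub (pow_nonneg hu0.le Q)).trans (hmk.trans (hmean.trans h5))
  have h7 : |C₀| * (n : ℝ) ^ (x * Q) ≤
      ((n : ℝ) ^ (x + ε)) ^ Q * (|C₀| * (n : ℝ) ^ (-(q : ℝ))) := by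
    have h8 : (n : ℝ) ^ (x * Q) ≤ (n : ℝ) ^ ((x + ε) * Q) * (n : ℝ) ^ (-(q : ℝ)) := by
      rw [← Real.rpow_add hn0]
      refine Real.rpow_le_rpow_of_exponent_le hn1 ?_
      linarith
    rw [hpow]
    calc |C₀| * (n : ℝ) ^ (x * Q)
        ≤ |C₀| * ((n : ℝ) ^ ((x + ε) * Q) * (n : ℝ) ^ (-(q : ℝ))) :=
          mul_le_mul_of_nonneg_left h8 (abs_nonneg _)
      _ = (n : ℝ) ^ ((x + ε) * Q) * (|C₀| * (n : ℝ) ^ (-(q : ℝ))) := by ring
  exact le_of_mul_le_mul_left (h6.trans h7) (pow_pos hu0 Q)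

lemma probS_measWT (h v r : ℝ) (y : ℤ) (n : ℕ) : Measurable fun g : Env => WT g h v r y n := by
  unfold WT
  refine Finset.measurable_sum _ fun s _ => ?_
  split_ifs
  · exact measurable_wt h 0 y n s
  · exact measurable_const

lemma probS_measQ (h v r : ℝ) (y : ℤ) (n : ℕ) :
    Measurable fun g : Env => WT g h v r y n / Z g h 0 y n :=
  (probS_measWT h v r y n).div (measurable_Z h 0 y n)

lemma probS_WT_le (g : Env) (h v r : ℝ) (y : ℤ) (n : ℕ) : WT g h v r y n ≤ Z g h 0 y n := by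
  unfold WT Z
  refine Finset.sum_le_sum fun s _ => ?_
  split_ifs
  · exact le_rfl
  · exact (wt_pos _ _ _ _ _ _).le

lemma probS_WT_nonneg (g : Env) (h v r : ℝ) (y : ℤ) (n : ℕ) : 0 ≤ WT g h v r y n := by
  unfold WT
  refine Finset.sum_nonneg fun s _ => ?_
  split_ifs
  · exact (wt_pos _ _ _ _ _ _).le
  · exact le_rfl

/-- Markov's inequality for the mass outside the tube. -/
lemma probS_mass (h v r : ℝ) (y : ℤ) (n : ℕ) :
    (law μ).real {g | WT g h v r y n / Z g h 0 y n < 1 / 2} ≤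
      2 * ∫ g, (1 - TM g h v r n) ∂(law μ) := by
  have hset : MeasurableSet {g : Env | WT g h v r 0 n / Z g h 0 0 n < 1 / 2} :=
    measurableSet_lt (probS_measQ h v r 0 n) measurable_const
  have hshift : (law μ).real {g | WT g h v r y n / Z g h 0 y n < 1 / 2} =
      (law μ).real {g | WT g h v r 0 n / Z g h 0 0 n < 1 / 2} := by
    rw [measureReal_def, measureReal_def, ← (mp_shiftEnv (μ := μ) 0 y).measure_preimage
      hset.nullMeasurableSet]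
    congr 2
    ext g
    simp only [Set.mem_preimage, Set.mem_setOf_eq, WT, wt_shiftEnv, Z_shiftEnv, zero_add]
  rw [hshift]
  have hTM : ∀ g : Env, TM g h v r n = WT g h v r 0 n / Z g h 0 0 n := fun g => rfl
  have h0 : ∀ g : Env, 0 ≤ 1 - TM g h v r n := fun g => by
    rw [hTM, sub_nonneg, div_le_one (Z_pos _ _ _ _ _)]
    exact probS_WT_le g h v r 0 n
  have h1 : ∀ g : Env, 1 - TM g h v r n ≤ 1 := fun g => by
    rw [hTM]
    have : 0 ≤ WT g h v r 0 n / Z g h 0 0 n :=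
      div_nonneg (probS_WT_nonneg g h v r 0 n) (Z_pos _ _ _ _ _).le
    linarith
  have hmeas : Measurable fun g : Env => 1 - TM g h v r n := by
    simp only [hTM]
    exact measurable_const.sub (probS_measQ h v r 0 n)
  have hint : Integrable (fun g : Env => 1 - TM g h v r n) (law μ) := by
    refine Integrable.mono' (integrable_const (1 : ℝ)) hmeas.aestronglyMeasurable
      (Filter.Eventually.of_forall fun g => ?_)
    rw [Real.norm_eq_abs, abs_of_nonneg (h0 g)]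
    exact h1 g
  have hmk := mul_meas_ge_le_integral_of_nonneg (μ := law μ)
    (f := fun g => 1 - TM g h v r n) (Filter.Eventually.of_forall h0) hint (1 / 2)
  have hsub : (law μ).real {g | WT g h v r 0 n / Z g h 0 0 n < 1 / 2} ≤
      (law μ).real {g | 1 / 2 ≤ 1 - TM g h v r n} := by
    refine measureReal_mono fun g hg => ?_
    have hg' : WT g h v r 0 n / Z g h 0 0 n < 1 / 2 := hg
    show 1 / 2 ≤ 1 - TM g h v r n
    rw [hTM]
    linarith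
  linarith

/-- TASK ProbS2. The masses: `1 - WT/Z = 1 - TM` for `y = 0`, the same law for `y = ℓ`
(`shiftEnv 0 ℓ`), Markov's inequality; the six events of `b0, b1, b2` with `tailZ` (exponent `Q` with
`b Q ≥ q`) since `n ^ b ≤ τ`; the tilts `h`, `h ± s` are at distance `< δ` of `h`. -/
theorem prob_gs (hμ : EM μ) {h v x e : ℝ} (hx : 0 < x) (hF : FlZ μ h x) (hT : TbZ μ h v e)
    {b ε : ℝ} (hb : 0 < b) (hε : 0 < ε) (q : ℕ) :
    ∃ δ > 0, ∃ C : ℝ, 0 ≤ C ∧ ∀ n : ℕ, 1 ≤ n → ∀ (τ ℓ : ℕ) (s : ℝ), (n : ℝ) ^ b ≤ τ → |s| < δ →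
      (law μ).real {g | ¬ GS μ h s ((τ : ℝ) ^ (x + ε)) v ((n : ℝ) ^ e) ℓ τ n g} ≤
        C * (n : ℝ) ^ (-(q : ℝ)) := by
  obtain ⟨Q, hQ⟩ := exists_nat_ge ((q : ℝ) / b)
  have hQ' : (q : ℝ) ≤ b * Q := by
    rw [div_le_iff₀ hb] at hQ
    linarith
  obtain ⟨δ, hδ, C₁, hC₁0, hC₁⟩ := tailZ hμ hx.le hF hε Q
  obtain ⟨C₂, hC₂⟩ := hT q
  refine ⟨δ, hδ, 4 * |C₂| + 6 * C₁, by positivity, fun n hn τ ℓ s hτ hs => ?_⟩
  have hn1 : (1 : ℝ) ≤ n := by exact_mod_cast hn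
  have hn0 : (0 : ℝ) < n := by linarith
  have hnb : 1 ≤ (n : ℝ) ^ b := Real.one_le_rpow hn1 hb.le
  have hτ1 : (1 : ℝ) ≤ τ := hnb.trans hτ
  have hτ1' : 1 ≤ τ := by exact_mod_cast hτ1
  have hmass : ∀ y : ℤ, (law μ).real {g | WT g h v ((n : ℝ) ^ e) y n / Z g h 0 y n < 1 / 2} ≤
      2 * (|C₂| * (n : ℝ) ^ (-(q : ℝ))) := by
    intro y
    refine (probS_mass h v _ y n).trans ?_
    refine mul_le_mul_of_nonneg_left ((hC₂ n hn).trans ?_) (by norm_num)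
    exact mul_le_mul_of_nonneg_right (le_abs_self _) (Real.rpow_nonneg hn0.le _)
  have hdev : ∀ h' : ℝ, |h' - h| < δ → ∀ y : ℤ,
      (law μ).real {g | (τ : ℝ) ^ (x + ε) < |Real.log (Z g h' 0 y τ) - a μ h' τ|} ≤
        C₁ * (n : ℝ) ^ (-(q : ℝ)) := by
    intro h' hh' y
    refine (hC₁ h' hh' τ hτ1' y).trans (mul_le_mul_of_nonneg_left ?_ hC₁0)
    calc (τ : ℝ) ^ (-(Q : ℝ)) ≤ ((n : ℝ) ^ b) ^ (-(Q : ℝ)) :=
          Real.rpow_le_rpow_of_nonpos (by linarith) hτ (by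
            have : (0 : ℝ) ≤ Q := Nat.cast_nonneg _
            linarith)
      _ = (n : ℝ) ^ (b * -(Q : ℝ)) := by rw [Real.rpow_mul hn0.le]
      _ ≤ (n : ℝ) ^ (-(q : ℝ)) := Real.rpow_le_rpow_of_exponent_le hn1 (by linarith)
  have e0 : |h - h| < δ := by rw [sub_self, abs_zero]; exact hδ
  have e1 : |h + s - h| < δ := by rw [add_sub_cancel_left]; exact hs
  have e2 : |h - s - h| < δ := by
    have : h - s - h = -s := by ring
    rw [this, abs_neg]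
    exact hs
  let A : ℤ → Set Env := fun y => {g | WT g h v ((n : ℝ) ^ e) y n / Z g h 0 y n < 1 / 2}
  let D : ℝ → ℤ → Set Env := fun h' y =>
    {g | (τ : ℝ) ^ (x + ε) < |Real.log (Z g h' 0 y τ) - a μ h' τ|}
  have hsub : {g | ¬ GS μ h s ((τ : ℝ) ^ (x + ε)) v ((n : ℝ) ^ e) ℓ τ n g} ⊆
      ((A 0 ∪ A ℓ) ∪ (D h 0 ∪ D h ℓ)) ∪ ((D (h + s) 0 ∪ D (h + s) ℓ) ∪
        (D (h - s) 0 ∪ D (h - s) ℓ)) := by
    intro g hg
    by_contra hcon
    apply hg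
    simp only [Set.mem_union, not_or] at hcon
    obtain ⟨⟨⟨a0, a1⟩, d0, d1⟩, ⟨d2, d3⟩, d4, d5⟩ := hcon
    refine ⟨not_lt.1 a0, not_lt.1 a1, ?_, ?_, ?_⟩
    · rintro y (rfl | rfl)
      · exact not_lt.1 d0
      · exact not_lt.1 d1
    · rintro y (rfl | rfl)
      · exact not_lt.1 d2
      · exact not_lt.1 d3
    · rintro y (rfl | rfl)
      · exact not_lt.1 d4
      · exact not_lt.1 d5
  have hA0 : (law μ).real (A 0) ≤ _ := hmass 0
  have hA1 : (law μ).real (A ℓ) ≤ _ := hmass ℓ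
  have hD0 : (law μ).real (D h 0) ≤ _ := hdev h e0 0
  have hD1 : (law μ).real (D h ℓ) ≤ _ := hdev h e0 ℓ
  have hD2 : (law μ).real (D (h + s) 0) ≤ _ := hdev (h + s) e1 0
  have hD3 : (law μ).real (D (h + s) ℓ) ≤ _ := hdev (h + s) e1 ℓ
  have hD4 : (law μ).real (D (h - s) 0) ≤ _ := hdev (h - s) e2 0
  have hD5 : (law μ).real (D (h - s) ℓ) ≤ _ := hdev (h - s) e2 ℓ
  have u1 := measureReal_union_le (μ := law μ) (A 0) (A ℓ)
  have u2 := measureReal_union_le (μ := law μ) (D h 0) (D h ℓ)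
  have u3 := measureReal_union_le (μ := law μ) (D (h + s) 0) (D (h + s) ℓ)
  have u4 := measureReal_union_le (μ := law μ) (D (h - s) 0) (D (h - s) ℓ)
  have u5 := measureReal_union_le (μ := law μ) (A 0 ∪ A ℓ) (D h 0 ∪ D h ℓ)
  have u6 := measureReal_union_le (μ := law μ) (D (h + s) 0 ∪ D (h + s) ℓ)
    (D (h - s) 0 ∪ D (h - s) ℓ)
  have u7 := measureReal_union_le (μ := law μ) ((A 0 ∪ A ℓ) ∪ (D h 0 ∪ D h ℓ))
    ((D (h + s) 0 ∪ D (h + s) ℓ) ∪ (D (h - s) 0 ∪ D (h - s) ℓ))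
  have u8 := measureReal_mono (μ := law μ) hsub
  nlinarith

/-- The good event is measurable. -/
lemma measurableSet_GS (h s u v r : ℝ) (ℓ τ n : ℕ) :
    MeasurableSet {g : Env | GS μ h s u v r ℓ τ n g} := by
  have hm : ∀ (h' : ℝ) (y : ℤ), MeasurableSet
      {g : Env | |Real.log (Z g h' 0 y τ) - a μ h' τ| ≤ u} := fun h' y =>
    measurableSet_le (by fun_prop) measurable_const
  have hq : ∀ y : ℤ, MeasurableSet {g : Env | 1 / 2 ≤ WT g h v r y n / Z g h 0 y n} := fun y =>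
    measurableSet_le measurable_const (probS_measQ h v r y n)
  have e : {g : Env | GS μ h s u v r ℓ τ n g} =
      ({g : Env | 1 / 2 ≤ WT g h v r 0 n / Z g h 0 0 n} ∩
        {g : Env | 1 / 2 ≤ WT g h v r ℓ n / Z g h 0 ℓ n}) ∩
      (({g : Env | |Real.log (Z g h 0 0 τ) - a μ h τ| ≤ u} ∩
        {g : Env | |Real.log (Z g h 0 ℓ τ) - a μ h τ| ≤ u}) ∩
      (({g : Env | |Real.log (Z g (h + s) 0 0 τ) - a μ (h + s) τ| ≤ u} ∩
        {g : Env | |Real.log (Z g (h + s) 0 ℓ τ) - a μ (h + s) τ| ≤ u}) ∩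
      ({g : Env | |Real.log (Z g (h - s) 0 0 τ) - a μ (h - s) τ| ≤ u} ∩
        {g : Env | |Real.log (Z g (h - s) 0 ℓ τ) - a μ (h - s) τ| ≤ u}))) := by
    ext g
    constructor
    · intro hg
      exact ⟨⟨hg.m0, hg.m1⟩, ⟨hg.b0 0 (Or.inl rfl), hg.b0 ℓ (Or.inr rfl)⟩,
        ⟨hg.b1 0 (Or.inl rfl), hg.b1 ℓ (Or.inr rfl)⟩, hg.b2 0 (Or.inl rfl), hg.b2 ℓ (Or.inr rfl)⟩
    · rintro ⟨⟨a0, a1⟩, ⟨d0, d1⟩, ⟨d2, d3⟩, d4, d5⟩
      refine ⟨a0, a1, ?_, ?_, ?_⟩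
      · rintro y (rfl | rfl)
        · exact d0
        · exact d1
      · rintro y (rfl | rfl)
        · exact d2
        · exact d3
      · rintro y (rfl | rfl)
        · exact d4
        · exact d5
  rw [e]
  exact ((hq 0).inter (hq ℓ)).inter (((hm h 0).inter (hm h ℓ)).inter
    (((hm (h + s) 0).inter (hm (h + s) ℓ)).inter ((hm (h - s) 0).inter (hm (h - s) ℓ))))

end Pool.Agent.W_7d29a1_h46s
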