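import Pool.Agent.W_7d29a1_h46s.Defs

/-!
The free energy of a tube.
-/

namespace Pool.Agent.W_7d29a1_h46s

open MeasureTheory ProbabilityTheory Filter Topology Pool.Agent.W_7d29a1_h47
  Pool.Agent.W_7d29a1_h46

variable {μ : Measure ℝ} [IsProbabilityMeasure μ]

lemma measurable_WT (h v r : ℝ) (y : ℤ) (n : ℕ) : Measurable fun g : Env => WT g h v r y n := by
  unfold WT
  refine Finset.measurable_sum _ fun s _ => ?_
  split_ifs
  · exact measurable_wt h 0 y n s
  · exact measurable_const

lemma measurable_YT (h v r : ℝ) (y : ℤ) (n : ℕ) (m M : ℝ) :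
    Measurable fun g : Env => YT g h v r y n m M := by
  unfold YT
  exact measurable_const.max (measurable_const.min (measurable_WT h v r y n).log)

/-- TASK YTube1. The weight of the tube depends on the sites of the tube only: the walk uses the sites
`(i, y + pos s (i + 1))`, `i < n`. -/
lemma dependsOn_YT (h v r : ℝ) (y : ℤ) (n : ℕ) (m M : ℝ) :
    DependsOn (fun g : Env => YT g h v r y n m M)
      {p | |(p.2 : ℝ) - y - ((p.1 : ℝ) + 1) * v| ≤ r} := by
  intro g g' hg
  have hWT : WT g h v r y n = WT g' h v r y n := by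
    unfold WT
    refine Finset.sum_congr rfl fun s _ => ?_
    split_ifs with hs
    · unfold wt En
      congr 2
      refine Finset.sum_congr rfl fun i hi => hg _ ?_
      have hi' := Finset.mem_range.1 hi
      have h1 := hs (i + 1) (by omega)
      push_cast at h1
      show |((y + pos s (i + 1) : ℤ) : ℝ) - y - (((0 + i : ℕ) : ℝ) + 1) * v| ≤ r
      push_cast
      have e : (y : ℝ) + (pos s (i + 1) : ℝ) - y - (0 + (i : ℝ) + 1) * v =
        (pos s (i + 1) : ℝ) - ((i : ℝ) + 1) * v := by ring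
      rw [e]
      exact h1
    · rfl
  simp only [YT, hWT]

/-- TASK YTube2. Disjoint tubes: independence of functions of disjoint sets of coordinates of the
product measure (`iIndepFun_infinitePi`, `iIndepFun.indepFun_...`; or with `integral_mul_indep` of
`W_7d29a1_h47/Env.lean` applied to indicators of measurable sets: `IndepFun` iff
`μ (A ∩ B) = μ A μ B`). -/
lemma indep_YT (h v : ℝ) {r : ℝ} {ℓ : ℕ} (hℓ : 2 * r < ℓ) (n : ℕ) (m M : ℝ) :
    IndepFun (fun g : Env => YT g h v r 0 n m M) (fun g : Env => YT g h v r ℓ n m M) (law μ) := by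
  have hF := measurable_YT h v r 0 n m M
  have hG := measurable_YT h v r ℓ n m M
  have hFA := dependsOn_YT h v r 0 n m M
  have hGB := dependsOn_YT h v r ℓ n m M
  set A : Set (ℕ × ℤ) := {p | |(p.2 : ℝ) - ((0 : ℤ) : ℝ) - ((p.1 : ℝ) + 1) * v| ≤ r} with hA
  have hsub : {p : ℕ × ℤ | |(p.2 : ℝ) - ((ℓ : ℤ) : ℝ) - ((p.1 : ℝ) + 1) * v| ≤ r} ⊆ Aᶜ := by
    intro p hp hpA
    have h1 : |(p.2 : ℝ) - ((ℓ : ℤ) : ℝ) - ((p.1 : ℝ) + 1) * v| ≤ r := hp
    have h2 : |(p.2 : ℝ) - ((0 : ℤ) : ℝ) - ((p.1 : ℝ) + 1) * v| ≤ r := hpA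
    rw [abs_le] at h1 h2
    push_cast at h1 h2
    linarith [h1.1, h1.2, h2.1, h2.2]
  have hGA : DependsOn (fun g : Env => YT g h v r ℓ n m M) Aᶜ := by
    intro g g' hg
    exact hGB fun p hp => hg p (hsub hp)
  rw [indepFun_iff_measure_inter_preimage_eq_mul]
  intro s t hs ht
  classical
  set F : Env → ℝ := fun g => YT g h v r 0 n m M with hFdef
  set G : Env → ℝ := fun g => YT g h v r ℓ n m M with hGdef
  have hsF : MeasurableSet (F ⁻¹' s) := hF hs
  have htG : MeasurableSet (G ⁻¹' t) := hG ht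
  have key := integral_mul_indep (μ := μ) A
    (F := (F ⁻¹' s).indicator (fun _ => (1 : ℝ))) (G := (G ⁻¹' t).indicator (fun _ => (1 : ℝ)))
    (measurable_const.indicator hsF) (measurable_const.indicator htG)
    (by
      intro g g' hg
      have e : F g = F g' := hFA hg
      simp only [Set.indicator, Set.mem_preimage, e])
    (by
      intro g g' hg
      have e : G g = G g' := hGA hg
      simp only [Set.indicator, Set.mem_preimage, e])
  have e1 : (fun g : Env => (F ⁻¹' s).indicator (fun _ => (1 : ℝ)) g *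
      (G ⁻¹' t).indicator (fun _ => (1 : ℝ)) g) =
      (F ⁻¹' s ∩ G ⁻¹' t).indicator (fun _ => (1 : ℝ)) := by
    funext g
    by_cases h1 : g ∈ F ⁻¹' s <;> by_cases h2 : g ∈ G ⁻¹' t <;> simp [Set.indicator, h1, h2]
  rw [e1, integral_indicator (hsF.inter htG), integral_indicator hsF, integral_indicator htG,
    setIntegral_const, setIntegral_const, setIntegral_const, smul_eq_mul, smul_eq_mul, smul_eq_mul,
    mul_one, mul_one, mul_one, measureReal_def, measureReal_def, measureReal_def,
    ← ENNReal.toReal_mul] at key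
  exact (ENNReal.toReal_eq_toReal_iff' (measure_ne_top _ _)
    (ENNReal.mul_ne_top (measure_ne_top _ _) (measure_ne_top _ _))).1 key

/-- TASK YTube3. `WT g h v r ℓ n = WT (shiftEnv 0 ℓ g) h v r 0 n` (`wt_shiftEnv`, `mp_shiftEnv`). -/
lemma ident_YT (h v r : ℝ) (ℓ n : ℕ) (m M : ℝ) :
    IdentDistrib (fun g : Env => YT g h v r 0 n m M) (fun g : Env => YT g h v r ℓ n m M)
      (law μ) (law μ) := by
  have hF := measurable_YT h v r 0 n m M
  have hG := measurable_YT h v r ℓ n m M
  have e : (fun g : Env => YT g h v r ℓ n m M) =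
      (fun g : Env => YT g h v r 0 n m M) ∘ (shiftEnv 0 (ℓ : ℤ)) := by
    funext g
    simp only [Function.comp_apply, YT, WT, wt_shiftEnv, zero_add]
  refine ⟨hF.aemeasurable, hG.aemeasurable, ?_⟩
  rw [e, ← Measure.map_map hF (mp_shiftEnv (μ := μ) 0 (ℓ : ℤ)).measurable,
    (mp_shiftEnv (μ := μ) 0 (ℓ : ℤ)).map_eq]

lemma YT_bound (g : Env) (h v r : ℝ) (y : ℤ) (n : ℕ) (m : ℝ) {M : ℝ} (hM : 0 ≤ M) :
    |YT g h v r y n m M - m| ≤ M := by
  unfold YT
  rw [abs_le]
  constructor
  · have := le_max_left (m - M) (min (m + M) (Real.log (WT g h v r y n)))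
    linarith
  · have : max (m - M) (min (m + M) (Real.log (WT g h v r y n))) ≤ m + M :=
      max_le (by linarith) (min_le_left _ _)
    linarith

/-- TASK YTube4. `WT ≤ Z` and `WT ≥ Z / 2`, so `|log WT - log Z| ≤ log 2`; clipping to an interval which
contains `log Z` does not increase the distance. -/
lemma YT_close (g : Env) (h v r : ℝ) (y : ℤ) (n : ℕ) {m M : ℝ}
    (h1 : 1 / 2 ≤ WT g h v r y n / Z g h 0 y n) (h2 : |Real.log (Z g h 0 y n) - m| ≤ M) :
    |Real.log (Z g h 0 y n) - YT g h v r y n m M| ≤ Real.log 2 := by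
  have hZ : 0 < Z g h 0 y n := Z_pos _ _ _ _ _
  have hle : WT g h v r y n ≤ Z g h 0 y n := by
    unfold WT Z
    refine Finset.sum_le_sum fun s _ => ?_
    split_ifs
    · exact le_rfl
    · exact (wt_pos _ _ _ _ _ _).le
  have hge : Z g h 0 y n / 2 ≤ WT g h v r y n := by
    rw [le_div_iff₀ hZ] at h1
    linarith
  have hW : 0 < WT g h v r y n := by linarith
  have l1 : Real.log (WT g h v r y n) ≤ Real.log (Z g h 0 y n) := Real.log_le_log hW hle
  have l2 : Real.log (Z g h 0 y n) - Real.log 2 ≤ Real.log (WT g h v r y n) := by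
    rw [← Real.log_div hZ.ne' two_ne_zero]
    exact Real.log_le_log (by positivity) hge
  rw [abs_le] at h2
  have hmin : min (m + M) (Real.log (WT g h v r y n)) = Real.log (WT g h v r y n) :=
    min_eq_right (by linarith [h2.2])
  unfold YT
  rw [hmin, abs_le]
  have a1 := le_max_right (m - M) (Real.log (WT g h v r y n))
  have a2 : max (m - M) (Real.log (WT g h v r y n)) ≤ Real.log (Z g h 0 y n) :=
    max_le (by linarith [h2.1]) l1
  have a3 : 0 ≤ Real.log 2 := Real.log_nonneg (by norm_num)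
  constructor <;> linarith

end Pool.Agent.W_7d29a1_h46s
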