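import Pool.Agent.W_7d29a1_h46s.GoodS
import Pool.Agent.W_7d29a1_h46s.YTube
import Pool.Agent.W_7d29a1_h46s.Dec
import Pool.Agent.W_7d29a1_h46s.ProbS
import Pool.Agent.W_7d29a1_h46s.ParS
import Pool.Agent.W_7d29a1_h47.LamB

/-!
The fluctuations at a curved tilt are small if the polymer wanders little.
-/

namespace Pool.Agent.W_7d29a1_h46s

open MeasureTheory ProbabilityTheory Filter Topology Pool.Agent.W_7d29a1_h47
  Pool.Agent.W_7d29a1_h46

variable {μ : Measure ℝ} [IsProbabilityMeasure μ]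

/-- The slope is smaller than one. -/
lemma MainS_slope (hμ : EM μ) {h v : ℝ} (hC : CvL (Lam μ) h v) : |v| < 1 := by
  obtain ⟨c, hc, δ, hδ, H⟩ := hC
  have h1 := H δ (le_of_eq (abs_of_pos hδ))
  have h2 := H (-δ) (le_of_eq (by rw [abs_neg, abs_of_pos hδ]))
  have h3 := slope_lt_one hμ (show h < h + δ by linarith)
  have h4 := neg_one_lt_slope hμ (show h + -δ < h by linarith)
  have h5 : 0 < c * δ ^ 2 := by positivity
  have h6 : c * (-δ) ^ 2 = c * δ ^ 2 := by ring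
  rw [h6] at h2
  rw [abs_lt]
  constructor
  · nlinarith
  · nlinarith

/-- The numerical bound. -/
lemma MainS_num {q : ℕ} {n w D B p C₂ Cp : ℝ} (hn : 1 ≤ n) (hw : 1 ≤ w) (hD : 0 ≤ D)
    (hC2 : 0 ≤ C₂) (hCp : 0 ≤ Cp) (hB : B ≤ C₂ * n ^ (2 * q)) (hp : p = Cp * (n ^ (4 * q))⁻¹) :
    3 ^ q * (2 * ((Real.log 2) ^ q + 2 ^ q * (Real.sqrt B * Real.sqrt p + n ^ q * p)) +
        ((D * w + 2 * Real.log 2) ^ q + (2 * n) ^ q * p)) ≤
      (3 ^ q * (2 * (1 + 2 ^ q * (Real.sqrt (C₂ * Cp) + Cp)) + ((D + 2) ^ q + 2 ^ q * Cp))) *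
        w ^ q := by
  have hn0 : 0 < n := by linarith
  have hlog0 : 0 ≤ Real.log 2 := Real.log_nonneg (by norm_num)
  have hlog1 : Real.log 2 ≤ 1 := by
    have := Real.log_two_lt_d9
    linarith
  have hwq : 1 ≤ w ^ q := one_le_pow₀ hw
  have hp0 : 0 ≤ p := by rw [hp]; positivity
  have e1 : (Real.log 2) ^ q ≤ 1 := pow_le_one₀ hlog0 hlog1
  have hnq : n ^ q * p ≤ Cp := by
    rw [hp]
    have h1 : n ^ q ≤ n ^ (4 * q) := pow_le_pow_right₀ hn (by omega)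
    have h2 : 0 < n ^ (4 * q) := by positivity
    calc n ^ q * (Cp * (n ^ (4 * q))⁻¹) = Cp * (n ^ q * (n ^ (4 * q))⁻¹) := by ring
      _ ≤ Cp * 1 := by
        refine mul_le_mul_of_nonneg_left ?_ hCp
        rw [← div_eq_mul_inv]
        exact div_le_one_of_le₀ h1 h2.le
      _ = Cp := mul_one _
  have e2 : Real.sqrt B * Real.sqrt p ≤ Real.sqrt (C₂ * Cp) := by
    rcases le_or_gt 0 B with hB0 | hB0
    · rw [← Real.sqrt_mul hB0]
      refine Real.sqrt_le_sqrt ?_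
      calc B * p ≤ (C₂ * n ^ (2 * q)) * p := mul_le_mul_of_nonneg_right hB hp0
        _ = (C₂ * Cp) * (n ^ (2 * q) * (n ^ (4 * q))⁻¹) := by rw [hp]; ring
        _ ≤ (C₂ * Cp) * 1 := by
          refine mul_le_mul_of_nonneg_left ?_ (mul_nonneg hC2 hCp)
          rw [← div_eq_mul_inv]
          exact div_le_one_of_le₀ (pow_le_pow_right₀ hn (by omega)) (by positivity)
        _ = C₂ * Cp := mul_one _
    · rw [Real.sqrt_eq_zero_of_nonpos hB0.le, zero_mul]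
      exact Real.sqrt_nonneg _
  have e3 : (2 * n) ^ q * p ≤ 2 ^ q * Cp := by
    rw [mul_pow, mul_assoc]
    exact mul_le_mul_of_nonneg_left hnq (by positivity)
  have e4 : (D * w + 2 * Real.log 2) ^ q ≤ (D + 2) ^ q * w ^ q := by
    rw [← mul_pow]
    refine pow_le_pow_left₀ (by positivity) ?_ q
    nlinarith
  have h3 : (0 : ℝ) ≤ 3 ^ q := by positivity
  rw [mul_assoc]
  refine mul_le_mul_of_nonneg_left ?_ h3
  have h2q : (0 : ℝ) ≤ 2 ^ q := by positivity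
  have e5 : 2 ^ q * (Real.sqrt B * Real.sqrt p + n ^ q * p) ≤
      2 ^ q * (Real.sqrt (C₂ * Cp) + Cp) := mul_le_mul_of_nonneg_left (by linarith) h2q
  have e6 : 0 ≤ 2 ^ q * (Real.sqrt (C₂ * Cp) + Cp) := by positivity
  have e7 : 0 ≤ 2 ^ q * Cp := by positivity
  have e8 : (2 * (1 + 2 ^ q * (Real.sqrt (C₂ * Cp) + Cp)) + 2 ^ q * Cp) * 1 ≤
      (2 * (1 + 2 ^ q * (Real.sqrt (C₂ * Cp) + Cp)) + 2 ^ q * Cp) * w ^ q :=
    mul_le_mul_of_nonneg_left hwq (by positivity)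
  nlinarith

/-- TASK MainS. `|v| < 1` by `CvL` and `slope_lt_one`, `neg_one_lt_slope` (`W_7d29a1_h47/LamB.lean`).
Choose `ε' ≤ ε` with `x + ε' < 1`, let `b = 2 e / (1 + x) < 1`. Parameters from `par` (with the constant
`CR` of `RtZ μ h (x + ε')`, the `δ` the minimum of the ones of `RtZ`, `CvL`, `prob_gs`). For large `n` apply
`dec` with `X₀ = log Z g h 0 0 n`, `X₁ = log Z g h 0 ℓ n`, `m = a μ h n` (`integral_logZ`), `M = n`,
`Y_i = YT g h v (n ^ e) y_i n m M` (`indep_YT`, `ident_YT`, `YT_bound`, `YT_close`), `c = log 2`,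
`D` from `gs_main` and `par`, `G = {GS} ∩ {|X₀ - m| ≤ n} ∩ {|X₁ - m| ≤ n}`, whose complement has
probability `O(n ^ (-Q))` for every `Q` (`prob_gs`, and Markov with a large power and `FlZ`, `x < 1`),
and `B = C n ^ (2 q x)` from `FlZ` for `2 q`. With `Q = 4 q` everything is `O(n ^ (b (x + ε') q))`, and
`b (x + ε') ≤ 2 e x / (1 + x) + ε`. For small `n` enlarge the constant. -/
theorem main_s (hμ : EM μ) {h v x e : ℝ} (hx0 : 0 < x) (hx1 : x < 1) (hF : FlZ μ h x)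
    (hR : ∀ ε : ℝ, 0 < ε → x + ε < 1 → RtZ μ h (x + ε)) (he0 : 0 < e) (he : 2 * e < 1 + x)
    (hT : TbZ μ h v e) (hC : CvL (Lam μ) h v) {ε : ℝ} (hε : 0 < ε) (q : ℕ) :
    ∃ C : ℝ, ∀ n : ℕ, 1 ≤ n →
      ∫ g, |Real.log (Z g h 0 0 n) - a μ h n| ^ q ∂(law μ) ≤
        C * (n : ℝ) ^ ((2 * e * x / (1 + x) + ε) * q) := by
  have hv := MainS_slope hμ hC
  obtain ⟨c, hc, δc, hδc, hcv⟩ := hC
  set ε' : ℝ := min ε ((1 - x) / 2) with hε'
  have hε'0 : 0 < ε' := lt_min hε (by linarith)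
  have hε'1 : ε' ≤ ε := min_le_left _ _
  have hxε : x + ε' < 1 := by
    have := min_le_right ε ((1 - x) / 2)
    linarith
  have hx2 : 0 < 1 + x := by linarith
  set b : ℝ := 2 * e / (1 + x) with hb
  have hb0 : 0 < b := by positivity
  have hb1 : b < 1 := (div_lt_one hx2).2 he
  obtain ⟨δ1, hδ1, CR, hCR0, hCR⟩ := hR ε' hε'0 hxε
  obtain ⟨δ2, hδ2, Cg, hCg0, hCg⟩ := prob_gs hμ hx0 hF hT hb0 hε'0 (4 * q)
  obtain ⟨δ3, hδ3, Ct, hCt0, hCt⟩ := tailZ hμ hx0.le hF (show 0 < 1 - x by linarith) (4 * q)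
  obtain ⟨δ4, hδ4, C2, hC2⟩ := hF (2 * q)
  set δ : ℝ := min δc (min δ1 δ2) with hδ
  have hδ0 : 0 < δ := lt_min hδc (lt_min hδ1 hδ2)
  obtain ⟨D, hD0, hpar⟩ := par (x := x) (e := e) (c := c) (CR := CR) (ε := ε') (v := v) (δ := δ)
    hx0 hx1 he0 he hc hCR0 hε'0 hxε hv hδ0
  set κ : ℝ := 2 * e * x / (1 + x) + ε with hκ
  have hbκ : b * (x + ε') ≤ κ := by
    have h1 : b * x = 2 * e * x / (1 + x) := by
      rw [hb]
      ring
    have h2 : b * ε' ≤ 1 * ε' := mul_le_mul_of_nonneg_right hb1.le hε'0.le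
    rw [mul_add, h1, hκ]
    linarith
  set C₂ : ℝ := |C2| with hC₂
  set Cp : ℝ := Cg + 2 * Ct with hCp
  have hCp0 : 0 ≤ Cp := by positivity
  set K : ℝ := 3 ^ q * (2 * (1 + 2 ^ q * (Real.sqrt (C₂ * Cp) + Cp)) + ((D + 2) ^ q + 2 ^ q * Cp))
    with hK
  have hK0 : 0 ≤ K := by positivity
  obtain ⟨n0, hn0⟩ := eventually_atTop.1 hpar
  -- the bound for large `n`
  have key : ∀ n : ℕ, n0 ≤ n → 1 ≤ n →
      ∫ g, |Real.log (Z g h 0 0 n) - a μ h n| ^ q ∂(law μ) ≤ K * (n : ℝ) ^ (κ * q) := by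
    intro n hn hn1
    obtain ⟨τ, ℓ, s, hτ1, hτ2, hs0, hsδ, hℓ0, hℓ2, hℓr, hroom, hbig, hfin⟩ := hn0 n hn
    have hn1' : (1 : ℝ) ≤ n := by exact_mod_cast hn1
    have hn0' : (0 : ℝ) < n := by linarith
    have hτpos : 1 ≤ τ := by
      have h1 : (1 : ℝ) ≤ (n : ℝ) ^ (2 * e / (1 + x)) := Real.one_le_rpow hn1' hb0.le
      have h2 := h1.trans hτ1
      exact_mod_cast h2
    set m : ℝ := a μ h n with hm
    set r : ℝ := (n : ℝ) ^ e with hr
    have hr0 : 0 ≤ r := Real.rpow_nonneg hn0'.le _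
    set u : ℝ := (τ : ℝ) ^ (x + ε') with hu
    have habs : |s| < δ := by rwa [abs_of_nonneg hs0]
    have hsc : |s| ≤ δc := (habs.trans_le (min_le_left _ _)).le
    have hs1 : |s| < δ1 := habs.trans_le ((min_le_right _ _).trans (min_le_left _ _))
    have hs2 : |s| < δ2 := habs.trans_le ((min_le_right _ _).trans (min_le_right _ _))
    have hc1 : Lam μ h + v * s + c * s ^ 2 ≤ Lam μ (h + s) := hcv s hsc
    have hc2 : Lam μ h - v * s + c * s ^ 2 ≤ Lam μ (h - s) := by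
      have h1 := hcv (-s) (by rwa [abs_neg])
      have h2 : h + -s = h - s := by ring
      rw [h2] at h1
      have h3 : (-s) ^ 2 = s ^ 2 := by ring
      rw [h3] at h1
      linarith
    have hR1 : τ * Lam μ (h + s) - a μ (h + s) τ ≤ CR * u :=
      hCR (h + s) (by rwa [add_sub_cancel_left]) τ hτpos
    have hR2 : τ * Lam μ (h - s) - a μ (h - s) τ ≤ CR * u := by
      refine hCR (h - s) ?_ τ hτpos
      have h1 : h - s - h = -s := by ring
      rwa [h1, abs_neg]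
    set w : ℝ := (n : ℝ) ^ (b * (x + ε')) with hw
    have hw1 : 1 ≤ w := Real.one_le_rpow hn1' (mul_nonneg hb0.le (by linarith))
    -- the good event
    set G : Set Env := {g | GS μ h s u v r ℓ τ n g} ∩
      ({g | |Real.log (Z g h 0 0 n) - m| ≤ n} ∩ {g | |Real.log (Z g h 0 ℓ n) - m| ≤ n}) with hG
    have hmX : ∀ y : ℤ, Measurable fun g : Env => Real.log (Z g h 0 y n) := fun y =>
      (measurable_Z h 0 y n).log
    have hm1 : ∀ y : ℤ, MeasurableSet {g : Env | |Real.log (Z g h 0 y n) - m| ≤ n} := fun y =>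
      measurableSet_le ((hmX y).sub_const m).abs measurable_const
    have hGm : MeasurableSet G := (measurableSet_GS h s u v r ℓ τ n).inter ((hm1 0).inter (hm1 ℓ))
    have hpow : ((n : ℝ) ^ (-((4 * q : ℕ) : ℝ))) = ((n : ℝ) ^ (4 * q))⁻¹ := by
      rw [Real.rpow_neg hn0'.le, Real.rpow_natCast]
    have hp : (law μ).real Gᶜ ≤ Cp * ((n : ℝ) ^ (4 * q))⁻¹ := by
      have hsub : Gᶜ ⊆ {g | ¬ GS μ h s u v r ℓ τ n g} ∪
          ({g | (n : ℝ) ^ (x + (1 - x)) < |Real.log (Z g h 0 0 n) - a μ h n|} ∪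
           {g | (n : ℝ) ^ (x + (1 - x)) < |Real.log (Z g h 0 ℓ n) - a μ h n|}) := by
        intro g hg
        have e1 : (n : ℝ) ^ (x + (1 - x)) = n := by
          rw [add_sub_cancel, Real.rpow_one]
        rw [e1]
        by_contra hcon
        simp only [Set.mem_union, not_or] at hcon
        obtain ⟨h1, h2, h3⟩ := hcon
        apply hg
        refine ⟨?_, ?_, ?_⟩
        · by_contra h4
          exact h1 h4
        · exact not_lt.1 (show ¬ (n : ℝ) < |Real.log (Z g h 0 0 n) - a μ h n| from h2)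
        · exact not_lt.1 (show ¬ (n : ℝ) < |Real.log (Z g h 0 ℓ n) - a μ h n| from h3)
      refine (measureReal_mono hsub (measure_ne_top _ _)).trans ?_
      refine (measureReal_union_le _ _).trans ?_
      have h1 := hCg n hn1 τ ℓ s hτ1 hs2
      have h2 := hCt h (by simpa using hδ3) n hn1 0
      have h3 := hCt h (by simpa using hδ3) n hn1 ℓ
      rw [hpow] at h1 h2 h3
      refine (add_le_add h1 ((measureReal_union_le _ _).trans (add_le_add h2 h3))).trans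
        (le_of_eq ?_)
      rw [hCp]
      ring
    have hGgood : ∀ g ∈ G, |Real.log (Z g h 0 0 n) - YT g h v r 0 n m n| ≤ Real.log 2 ∧
        |Real.log (Z g h 0 ℓ n) - YT g h v r ℓ n m n| ≤ Real.log 2 ∧
        |Real.log (Z g h 0 0 n) - Real.log (Z g h 0 ℓ n)| ≤ D * w := by
      rintro g ⟨hg1, hg2, hg3⟩
      refine ⟨YT_close g h v r 0 n hg1.m0 hg2, YT_close g h v r ℓ n hg1.m1 hg3, ?_⟩
      have h1 := gs_main hμ (c := c) (R := CR * u) hs0 hr0 hτ2 hℓ0 hℓ2 hroom hc1 hc2 hR1 hR2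
        hbig hg1
      exact h1.trans hfin
    have hBint := int_dev hμ h n (2 * q)
    have hBle : ∫ g, |Real.log (Z g h 0 0 n) - m| ^ (2 * q) ∂(law μ) ≤ C₂ * (n : ℝ) ^ (2 * q) := by
      have h1 := hC2 h (by simpa using hδ4) n hn1
      refine h1.trans ?_
      have h2 : (n : ℝ) ^ (x * ((2 * q : ℕ) : ℝ)) ≤ (n : ℝ) ^ (2 * q) := by
        rw [← Real.rpow_natCast]
        refine Real.rpow_le_rpow_of_exponent_le hn1' ?_
        have : (0 : ℝ) ≤ ((2 * q : ℕ) : ℝ) := Nat.cast_nonneg _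
        nlinarith
      exact mul_le_mul (le_abs_self _) h2 (Real.rpow_nonneg hn0'.le _) (abs_nonneg _)
    have hdec := dec (P := law μ) (X₀ := fun g => Real.log (Z g h 0 0 n))
      (X₁ := fun g => Real.log (Z g h 0 ℓ n)) (Y₀ := fun g => YT g h v r 0 n m n)
      (Y₁ := fun g => YT g h v r ℓ n m n) (hmX 0) (hmX ℓ) (measurable_YT h v r 0 n m n)
      (measurable_YT h v r ℓ n m n) (indep_YT h v hℓr n m n) (ident_YT h v r ℓ n m n)
      (m := m) (M := n) (c := Real.log 2) (D := D * w)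
      (p := Cp * ((n : ℝ) ^ (4 * q))⁻¹) (B := C₂ * (n : ℝ) ^ (2 * q)) hn0'.le
      (Real.log_nonneg (by norm_num)) (mul_nonneg hD0 (by linarith))
      (integral_logZ h 0 0 n) (EMom_logZ hμ h 0 0 n).integrable
      (fun g => ⟨YT_bound g h v r 0 n m hn0'.le, YT_bound g h v r ℓ n m hn0'.le⟩) hGm hGgood hp q
      hBint hBle
    refine hdec.trans ((MainS_num hn1' hw1 hD0 (abs_nonneg _) hCp0 le_rfl rfl).trans ?_)
    refine mul_le_mul_of_nonneg_left ?_ hK0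
    rw [hw, ← Real.rpow_natCast, ← Real.rpow_mul hn0'.le]
    exact Real.rpow_le_rpow_of_exponent_le hn1'
      (mul_le_mul_of_nonneg_right hbκ (Nat.cast_nonneg q))
  -- small `n`
  set S : ℝ := ∑ k ∈ Finset.range n0, |∫ g, |Real.log (Z g h 0 0 k) - a μ h k| ^ q ∂(law μ)|
    with hS
  have hS0 : 0 ≤ S := Finset.sum_nonneg fun _ _ => abs_nonneg _
  have hκ0 : 0 ≤ κ := by positivity
  refine ⟨K + S, fun n hn1 => ?_⟩
  have hn1' : (1 : ℝ) ≤ n := by exact_mod_cast hn1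
  have hpow1 : 1 ≤ (n : ℝ) ^ (κ * q) :=
    Real.one_le_rpow hn1' (mul_nonneg hκ0 (Nat.cast_nonneg q))
  rcases le_or_gt n0 n with hn | hn
  · refine (key n hn hn1).trans (mul_le_mul_of_nonneg_right (by linarith) (by linarith))
  · have h1 : |∫ g, |Real.log (Z g h 0 0 n) - a μ h n| ^ q ∂(law μ)| ≤ S :=
      Finset.single_le_sum (f := fun k : ℕ =>
        |∫ g, |Real.log (Z g h 0 0 k) - a μ h k| ^ q ∂(law μ)|)
        (fun _ _ => abs_nonneg _) (Finset.mem_range.2 hn)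
    calc ∫ g, |Real.log (Z g h 0 0 n) - a μ h n| ^ q ∂(law μ) ≤ S := (le_abs_self _).trans h1
      _ ≤ (K + S) * 1 := by linarith
      _ ≤ (K + S) * (n : ℝ) ^ (κ * q) := mul_le_mul_of_nonneg_left hpow1 (by linarith)

end Pool.Agent.W_7d29a1_h46s
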